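import Pool.Agent.Helper94.TQ.Facts

set_option autoImplicit false
set_option linter.all false
set_option maxHeartbeats 4000000

namespace Pool.Agent.Helper94.TQ

open Pool.Agent.Helper89.TQ

theorem c0_11_13_23_k0 {n1 n2 n3 A1 A2 A3 B1 B2 B3 m11_1 m11_2 m11_3 m13_1 m13_2 m13_3 m22_1 m22_2 m22_3 m23_1 m23_2 m23_3 m33_1 m33_2 m33_3 : ℤ}
    (C : Ctx0 n1 n2 n3 A1 A2 A3 B1 B2 B3 m11_1 m11_2 m11_3 m13_1 m13_2 m13_3 m22_1 m22_2 m22_3 m23_1 m23_2 m23_3 m33_1 m33_2 m33_3)
    (e0 : 0 < B1)
    (e1 : 0 < A1)
    (e2 : 0 < B3)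
    (e3 : 0 < A2)
    (s1 : 0 * A1 + 3 * B1 ≤ m11_1 + m13_1 + m23_1)
    (s2 : 0 * A2 + 3 * B2 ≤ m11_2 + m13_2 + m23_2)
    (s3 : 0 * A3 + 3 * B3 ≤ m11_3 + m13_3 + m23_3) : False := by
  rcases C.f13_2 with g0 | g0
  · rcases (Ctx0_p11_13B C) with g1 | g1 | g1 | g1 | g1 | g1
    · linarith only [e0, g1]
    · linarith only [C.o0, e0, g1]
    · linarith only [C.f11_0, C.f13_1, C.f23_2, e0, g1, s1]
    · rcases C.f23_7 with g2 | g2 | g2
      · linarith only [C.a3, C.f11_0, C.f23_5, g0, g1, g2, s1]
      · rcases (Ctx0_p11_23B C) with g3 | g3 | g3 | g3 | g3 | g3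
        · linarith only [e0, g3]
        · linarith only [C.f23_1, e0, g1, g3, s1]
        · linarith only [C.f11_0, C.f13_1, C.f23_2, e0, g3, s1]
        · linarith only [C.f11_0, g1, g3, s1]
        · rcases C.f13_8 with g4 | g4
          · linarith only [C.f11_2, C.f13_7, C.f23_8, g3, g4, s2, s3]
          · rcases C.f23_10 with g5 | g5
            · linarith only [C.f11_2, C.f13_7, C.f23_9, C.o1, g2, g3, g5, s3]
            · rcases (Ctx0_p11_13A C) with g6 | g6 | g6 | g6 | g6 | g6
              · linarith only [e0, g6]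
              · linarith only [C.o0, e0, g6]
              · linarith only [C.f11_0, C.f13_1, C.f23_2, e0, g6, s1]
              · rcases (Ctx0_p13_23A C) with g7 | g7 | g7 | g7 | g7 | g7
                · linarith only [C.o0, e0, g7]
                · linarith only [C.f11_0, C.f13_1, C.f23_2, e0, g7, s1]
                · linarith only [C.f23_1, e0, g1, g7, s1]
                · rcases (Ctx0_p13_23B C) with g8 | g8 | g8 | g8 | g8 | g8
                  · linarith only [C.o0, e0, g8]
                  · linarith only [C.f11_0, C.f13_1, C.f23_2, e0, g8, s1]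
                  · linarith only [C.f23_1, e0, g1, g8, s1]
                  · linarith only [C.f11_0, g8, s1]
                  · linarith only [C.o1, g2, g3, g8, s2]
                  · rcases (Ctx0_tzmp C) with g9 | g9 | g9 | g9
                    · linarith only [C.f11_0, C.f11_1, C.f13_0, C.f13_3, g1, g2, g3, g9, s2]
                    · rcases (Ctx0_tzpm C) with g10 | g10 | g10 | g10 | g10
                      · linarith only [C.f11_0, C.f23_1, g0, g1, g10, s1]
                      · linarith only [C.f11_2, C.f13_7, C.f23_9, C.o1, C.o2, g10, g2, g3, s3]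
                      · linarith only [C.f11_0, C.f13_3, g1, g10, g3, s2]
                      · linarith only [C.f13_4, g10, g3, s2]
                      · linarith only [C.f11_0, C.f11_1, C.f13_3, g1, g10.1, g2, g3, s2]
                    · linarith only [C.f11_0, C.f11_1, C.f13_3, C.f23_1, g1, g2, g3, g9, s1, s2]
                    · linarith only [C.f11_2, C.f13_7, C.f23_9, C.o1, g2, g3, g9, s3]
                · linarith only [C.f11_0, C.f11_1, C.f13_3, g1, g2, g3, g7, s2]
                · linarith only [C.o2, g4, g5, g7]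
              · linarith only [C.f11_0, C.f11_1, C.f13_3, g1, g2, g3, g6, s2]
              · linarith only [C.f23_9, C.o2, g6, s3]
        · linarith only [C.f13_7, g3, s3]
      · linarith only [C.a4, C.f23_5, C.o2, g2]
    · rcases C.f13_5 with g2 | g2
      · linarith only [C.a3, C.b3, C.f11_0, C.f11_1, C.f23_5, g0, g1, g2, s2]
      · linarith only [C.a4, C.b3, C.f11_0, C.f11_1, C.f23_5, C.o2, g1, g2, s2]
    · linarith only [C.f23_9, g1, s3]
  · linarith only [C.a2, C.a4, C.f13_0, C.o2, g0]

end Pool.Agent.Helper94.TQ
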