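import Pool.Agent.Helper94.TQ.Facts

set_option autoImplicit false
set_option linter.all false
set_option maxHeartbeats 4000000

namespace Pool.Agent.Helper94.TQ

open Pool.Agent.Helper89.TQ

theorem c0_11_13_23_k3 {n1 n2 n3 A1 A2 A3 B1 B2 B3 m11_1 m11_2 m11_3 m13_1 m13_2 m13_3 m22_1 m22_2 m22_3 m23_1 m23_2 m23_3 m33_1 m33_2 m33_3 : ℤ}
    (C : Ctx0 n1 n2 n3 A1 A2 A3 B1 B2 B3 m11_1 m11_2 m11_3 m13_1 m13_2 m13_3 m22_1 m22_2 m22_3 m23_1 m23_2 m23_3 m33_1 m33_2 m33_3)
    (e0 : 0 < B1)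
    (e1 : 0 < A1)
    (e2 : 0 < B3)
    (e3 : 0 < A2)
    (s1 : 3 * A1 + 0 * B1 ≤ m11_1 + m13_1 + m23_1)
    (s2 : 3 * A2 + 0 * B2 ≤ m11_2 + m13_2 + m23_2)
    (s3 : 3 * A3 + 0 * B3 ≤ m11_3 + m13_3 + m23_3) : False := by
  rcases C.f13_2 with g0 | g0
  · rcases C.f23_7 with g1 | g1 | g1
    · linarith only [C.f11_0, C.f11_1, C.f13_0, C.f13_3, C.f23_5, C.o0, g1, s1, s2]
    · rcases (Ctx0_tmpp C) with g2 | g2 | g2 | g2
      · linarith only [C.f11_0, C.f13_0, C.f23_0, C.o0, g2, s1]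
      · linarith only [C.f11_0, C.f13_0, C.f23_1, C.o0, g2, s1]
      · linarith only [e0, g2]
      · rcases C.f13_8 with g3 | g3
        · linarith only [C.b5, C.f11_0, C.f11_1, C.f13_7, C.f23_5, C.o1, g2, g3, s2]
        · rcases (Ctx0_p11_13A C) with g4 | g4 | g4 | g4 | g4 | g4
          · linarith only [e0, g4]
          · linarith only [C.o0, e0, g4]
          · linarith only [C.f11_0, C.f13_0, C.f23_2, C.o0, e0, g4, s1]
          · rcases (Ctx0_p13_23A C) with g5 | g5 | g5 | g5 | g5 | g5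
            · linarith only [C.o0, e0, g5]
            · linarith only [C.f11_0, C.f13_0, C.f23_2, C.o0, e0, g5, s1]
            · linarith only [C.f11_0, C.f13_0, C.f23_1, C.o0, e0, g5, s1]
            · linarith only [C.f11_0, C.o0, g5, s1]
            · linarith only [C.f11_0, C.f11_1, C.o1, g2, g5, s2]
            · rcases C.f23_10 with g6 | g6
              · linarith only [C.b5, C.o1, C.o2, g1, g3, g5, g6]
              · linarith only [C.o2, g3, g5, g6]
          · linarith only [C.f23_5, g4, s2]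
          · linarith only [C.b3, C.b5, C.f11_0, C.f11_1, C.f11_2, C.f23_9, g3, g4, s3]
    · linarith only [C.a4, C.f23_5, C.o2, g1]
  · linarith only [C.f11_0, C.f13_0, C.f23_2, C.o0, g0, s1]

end Pool.Agent.Helper94.TQ
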