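import Pool.Agent.Helper94.TQ.Facts

set_option autoImplicit false
set_option linter.all false
set_option maxHeartbeats 4000000

namespace Pool.Agent.Helper94.TQ

open Pool.Agent.Helper89.TQ

theorem c0_11_22_33_k0 {n1 n2 n3 A1 A2 A3 B1 B2 B3 m11_1 m11_2 m11_3 m13_1 m13_2 m13_3 m22_1 m22_2 m22_3 m23_1 m23_2 m23_3 m33_1 m33_2 m33_3 : ℤ}
    (C : Ctx0 n1 n2 n3 A1 A2 A3 B1 B2 B3 m11_1 m11_2 m11_3 m13_1 m13_2 m13_3 m22_1 m22_2 m22_3 m23_1 m23_2 m23_3 m33_1 m33_2 m33_3)
    (e0 : 0 < B1)
    (e1 : 0 < B2)
    (e2 : 0 < A3)
    (s1 : 0 * A1 + 3 * B1 ≤ m11_1 + m22_1 + m33_1)
    (s2 : 0 * A2 + 3 * B2 ≤ m11_2 + m22_2 + m33_2)
    (s3 : 0 * A3 + 3 * B3 ≤ m11_3 + m22_3 + m33_3) : False := by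
  rcases C.f13_2 with g0 | g0
  · rcases (Ctx0_p11_33B C) with g1 | g1 | g1 | g1 | g1
    · linarith only [e0, g1]
    · linarith only [e2, g1]
    · rcases C.f22_5 with g2 | g2
      · linarith only [C.f11_1, C.f22_4, C.f33_3, g1, g2, s1, s2]
      · rcases C.f33_2 with g3 | g3
        · linarith only [C.a1, C.f11_0, C.o0, g1, g3]
        · linarith only [C.a4, C.f11_0, C.f22_1, C.o1, g1, g3, s1]
    · linarith only [C.f22_4, g1, s2]
    · rcases C.f33_8 with g2 | g2
      · linarith only [C.f11_2, C.f22_4, C.f22_6, g1, g2, s2, s3]
      · rcases C.f13_8 with g3 | g3
        · rcases C.f13_5 with g4 | g4
          · linarith only [C.b3, C.f11_0, C.f11_1, C.f11_2, C.f13_7, C.f22_4, C.f22_6, C.f33_7, C.o0, C.o2, g0, g3, g4, s3]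
          · linarith only [C.f11_2, C.f13_7, C.f22_4, C.f22_6, C.f33_4, g1, g2, g3, g4, s2, s3]
        · rcases C.f23_3 with g4 | g4 | g4
          · rcases C.f23_7 with g5 | g5 | g5
            · linarith only [C.a1, C.a3, C.f23_5, g4, g5]
            · rcases C.f23_10 with g6 | g6
              · linarith only [C.f22_4, C.f22_6, C.f23_9, C.o1, g1, g5, g6, s3]
              · rcases (Ctx0_p11_23B C) with g7 | g7 | g7 | g7 | g7 | g7
                · linarith only [e0, g7]
                · linarith only [C.a1, C.f23_1, C.o0, e0, g4, g7]
                · linarith only [C.o2, e2, g7]
                · linarith only [C.a1, C.f11_0, C.o0, g4, g7]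
                · rcases C.f33_2 with g8 | g8
                  · rcases (Ctx0_p22_23B C) with g9 | g9 | g9 | g9 | g9 | g9
                    · linarith only [e1, g9]
                    · linarith only [C.a1, C.f23_1, C.o0, e0, g4, g9]
                    · linarith only [C.o2, e2, g9]
                    · linarith only [C.f11_0, C.f33_0, g4, g9, s1]
                    · rcases (Ctx0_p22_33B C) with g10 | g10 | g10 | g10 | g10
                      · linarith only [e1, g10]
                      · linarith only [e2, g10]
                      · linarith only [C.f11_0, g10, s1]
                      · linarith only [C.o1, g10, g5, g7, s2]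
                      · rcases (Ctx0_p23_33A C) with g11 | g11 | g11 | g11 | g11 | g11
                        · linarith only [C.a1, C.f23_1, C.o0, e0, g11, g4]
                        · linarith only [C.o2, e2, g11]
                        · linarith only [e2, g11]
                        · linarith only [C.a1, g11, g4, g8]
                        · linarith only [C.f22_4, g11, g5, g7, s2]
                        · rcases C.t12 with g12 | g12
                          · rcases (Ctx0_p23_33B C) with g13 | g13 | g13 | g13 | g13 | g13
                            · linarith only [C.a1, C.f23_1, C.o0, e0, g13, g4]
                            · linarith only [C.o2, e2, g13]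
                            · linarith only [e2, g13]
                            · linarith only [C.a1, C.o0, g13, g4, g8]
                            · linarith only [C.f11_2, C.f22_4, C.f22_6, C.o1, g1, g11, g13, g2, g5, g6, s2, s3]
                            · rcases (Ctx0_tzmp C) with g14 | g14 | g14 | g14
                              · linarith only [g12.2, g14]
                              · linarith only [C.f22_4, C.f33_4, g14, g5, g7, s2]
                              · linarith only [C.a1, C.f11_1, C.f22_1, C.f23_1, C.f33_0, g12.2, g14, g4, g5, g7, s1]
                              · linarith only [C.f22_4, C.f22_6, g1, g14, s3]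
                          · linarith only [C.f11_0, C.f11_1, C.f11_2, C.f22_4, C.f22_6, g1, g11, g12.2, g2, g6, s3]
                    · linarith only [g1, g6, g9, s3]
                  · linarith only [C.f22_4, C.f23_1, C.f33_0, C.f33_4, g4, g5, g7, g8, s2]
                · linarith only [C.b3, C.f11_0, C.f11_1, C.f11_2, C.f22_4, C.f22_6, C.f33_7, C.o2, g6, g7, s3]
            · linarith only [C.a4, C.f23_5, C.o2, g5]
          · rcases C.f23_10 with g5 | g5
            · rcases C.f23_7 with g6 | g6 | g6
              · linarith only [C.a2, C.b3, C.f11_0, C.f11_1, C.f11_2, C.f22_4, C.f22_6, C.f23_9, C.f33_7, C.o0, C.o2, g4, g5, g6, s3]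
              · linarith only [C.f22_4, C.f22_6, C.f23_9, C.o1, g1, g5, g6, s3]
              · linarith only [C.f11_2, C.f22_4, C.f22_6, C.f23_9, C.f33_4, g1, g2, g5, g6, s2, s3]
            · rcases C.t12 with g6 | g6
              · rcases C.f23_7 with g7 | g7 | g7
                · linarith only [C.a2, C.f23_5, g4, g6.2, g7]
                · rcases (Ctx0_p11_23B C) with g8 | g8 | g8 | g8 | g8 | g8
                  · linarith only [e0, g8]
                  · linarith only [C.a2, C.o0, e0, g8]
                  · linarith only [C.o2, e2, g8]
                  · rcases C.t23 with g9 | g9
                    · linarith only [C.f11_0, C.o0, g4, g8, g9.1]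
                    · rcases C.f13_5 with g10 | g10
                      · rcases C.f22_2 with g11 | g11
                        · linarith only [C.a1, C.f11_0, C.f22_1, C.o0, C.o1, g11, g4, g8]
                        · rcases C.f22_5 with g12 | g12
                          · linarith only [C.b3, C.f22_4, g11, g12, g9.1]
                          · rcases (Ctx0_p11_33A C) with g13 | g13 | g13 | g13 | g13
                            · linarith only [e0, g13]
                            · linarith only [e2, g13]
                            · rcases (Ctx0_p13_22B C) with g14 | g14 | g14 | g14 | g14 | g14
                              · linarith only [C.o0, e0, g14]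
                              · linarith only [C.o2, e2, g14]
                              · linarith only [e0, g14, g9.1]
                              · linarith only [C.o0, g0, g11, g14, g9.1]
                              · rcases C.f33_2 with g15 | g15
                                · rcases (Ctx0_p13_33A C) with g16 | g16 | g16 | g16 | g16 | g16
                                  · linarith only [C.o0, e0, g16]
                                  · linarith only [C.o2, e2, g16]
                                  · linarith only [e2, g16]
                                  · linarith only [C.f11_0, C.f11_1, C.f33_3, C.o0, g0, g10, g12, g14, g16, s2]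
                                  · linarith only [C.f11_1, C.o0, g0, g10, g14, g16, g4, g6.2, g8, g9.1, s2]
                                  · rcases (Ctx0_p13_33B C) with g17 | g17 | g17 | g17 | g17 | g17
                                    · linarith only [C.o0, e0, g17]
                                    · linarith only [C.o2, e2, g17]
                                    · linarith only [e2, g17]
                                    · linarith only [C.a1, C.o0, g0, g15, g17]
                                    · linarith only [C.f11_0, C.f11_1, C.f22_4, C.o0, g0, g10, g17, s2]
                                    · rcases (Ctx0_p22_23B C) with g18 | g18 | g18 | g18 | g18 | g18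
                                      · linarith only [e0, g18, g9.1]
                                      · linarith only [C.a2, C.o0, e0, g18]
                                      · linarith only [C.o2, e2, g18]
                                      · linarith only [C.a2, C.o0, g11, g18, g4, g9.1]
                                      · rcases (Ctx0_p22_33A C) with g19 | g19 | g19 | g19 | g19
                                        · linarith only [e0, g19, g9.1]
                                        · linarith only [e2, g19]
                                        · linarith only [C.f11_0, C.f11_1, C.f33_3, g0, g10, g11, g12, g14, g19, g9.1, s2]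
                                        · linarith only [C.f11_0, C.f11_1, C.o0, g0, g10, g12, g14, g19, g4, g8, g9.1, s2]
                                        · linarith only [C.o2, g1, g19, g2, s3]
                                      · linarith only [g1, g18, g5, s3]
                                · linarith only [C.a2, C.f11_0, C.f11_1, C.f33_4, g0, g10, g13, g14, g15, g4, g8, g9.1, s2]
                              · linarith only [g1, g14, g3, s3]
                            · linarith only [C.f11_0, C.f22_4, g13, g4, g8, g9.1, s2]
                            · linarith only [C.b3, C.f11_0, C.f11_1, C.f11_2, C.f22_4, C.f22_6, C.o2, g13, g2, s3]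
                      · linarith only [C.a2, C.f11_0, C.f11_1, C.f11_2, C.f13_0, C.f13_3, C.f22_1, C.f22_4, C.f22_6, C.f33_1, C.o1, g1, g10, g2, g4, g8, s1, s3]
                  · rcases (Ctx0_p22_33B C) with g9 | g9 | g9 | g9 | g9
                    · linarith only [e1, g9]
                    · linarith only [e2, g9]
                    · linarith only [C.f11_0, g9, s1]
                    · linarith only [C.o1, g7, g8, g9, s2]
                    · rcases (Ctx0_p23_33B C) with g10 | g10 | g10 | g10 | g10 | g10
                      · linarith only [C.a2, C.o0, e0, g10]
                      · linarith only [C.o2, e2, g10]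
                      · linarith only [e2, g10]
                      · linarith only [C.f11_0, C.f22_1, C.o1, g10, g4, s1]
                      · linarith only [C.f22_4, C.o1, g10, g7, g8, s2]
                      · rcases (Ctx0_tzmp C) with g11 | g11 | g11 | g11
                        · linarith only [g11, g6.2]
                        · linarith only [C.f22_4, C.f33_4, g11, g7, g8, s2]
                        · linarith only [C.a2, C.f11_0, C.f11_1, C.o0, g11, g6.2, g7, g8]
                        · linarith only [C.f22_4, C.f22_6, g1, g11, s3]
                  · linarith only [C.b3, C.f11_0, C.f11_1, C.f11_2, C.f22_4, C.f22_6, C.f33_7, C.o2, g5, g8, s3]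
                · linarith only [C.a4, C.f23_5, C.o2, g7]
              · rcases C.f23_7 with g7 | g7 | g7
                · linarith only [C.b2, C.f23_5, g4, g6.2, g7]
                · rcases (Ctx0_tzpm C) with g8 | g8 | g8 | g8 | g8
                  · rcases C.t23 with g9 | g9
                    · linarith only [g8, g9.1]
                    · rcases C.f22_2 with g10 | g10
                      · linarith only [C.a1, C.f22_1, C.o1, g10, g8]
                      · rcases C.f22_5 with g11 | g11
                        · linarith only [C.f22_4, g10, g11, g6.2, g9.1]
                        · rcases (Ctx0_p13_22B C) with g12 | g12 | g12 | g12 | g12 | g12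
                          · linarith only [C.o0, e0, g12]
                          · linarith only [C.o2, e2, g12]
                          · linarith only [e0, g12, g9.1]
                          · linarith only [C.o0, g0, g10, g12, g9.1]
                          · rcases C.f13_5 with g13 | g13
                            · linarith only [C.o0, g0, g11, g12, g13, g6.2]
                            · linarith only [C.f11_2, C.f22_4, C.f22_6, C.f33_4, g1, g12, g13, g2, s2, s3]
                          · linarith only [g1, g12, g3, s3]
                  · linarith only [C.f22_4, C.f22_6, C.o1, C.o2, g1, g8, s3]
                  · linarith only [g6.2, g8]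
                  · linarith only [C.f11_2, C.f22_4, C.f22_6, C.f33_4, g1, g2, g8, s2, s3]
                  · linarith only [C.f11_0, C.f11_1, C.f11_2, C.f22_4, C.f22_6, g1, g2, g6.2, g8.2, s3]
                · linarith only [C.a4, C.f23_5, C.o2, g7]
          · linarith only [C.a4, C.f23_1, C.o2, g4]
  · linarith only [C.a2, C.a4, C.f13_0, C.o2, g0]

end Pool.Agent.Helper94.TQ
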