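import Pool.Agent.Helper94.TQ.Facts

set_option autoImplicit false
set_option linter.all false
set_option maxHeartbeats 4000000

namespace Pool.Agent.Helper94.TQ

open Pool.Agent.Helper89.TQ

theorem c0_11_22_33_k3 {n1 n2 n3 A1 A2 A3 B1 B2 B3 m11_1 m11_2 m11_3 m13_1 m13_2 m13_3 m22_1 m22_2 m22_3 m23_1 m23_2 m23_3 m33_1 m33_2 m33_3 : ℤ}
    (C : Ctx0 n1 n2 n3 A1 A2 A3 B1 B2 B3 m11_1 m11_2 m11_3 m13_1 m13_2 m13_3 m22_1 m22_2 m22_3 m23_1 m23_2 m23_3 m33_1 m33_2 m33_3)
    (e0 : 0 < B1)
    (e1 : 0 < B2)
    (e2 : 0 < A3)
    (s1 : 3 * A1 + 0 * B1 ≤ m11_1 + m22_1 + m33_1)
    (s2 : 3 * A2 + 0 * B2 ≤ m11_2 + m22_2 + m33_2)
    (s3 : 3 * A3 + 0 * B3 ≤ m11_3 + m22_3 + m33_3) : False := by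
  rcases C.f13_2 with g0 | g0
  · rcases (Ctx0_p11_33A C) with g1 | g1 | g1 | g1 | g1
    · linarith only [e0, g1]
    · linarith only [C.a4, C.f11_0, C.f22_1, C.f33_1, C.o0, C.o1, e0, g1, s1]
    · rcases C.f22_5 with g2 | g2
      · linarith only [C.b3, C.f22_4, C.o0, g1, g2, s1]
      · rcases (Ctx0_tmpp C) with g3 | g3 | g3 | g3
        · linarith only [C.f11_0, C.f22_0, C.f33_0, C.o0, g3, s1]
        · linarith only [C.f22_1, C.o1, g1, g3, s1]
        · linarith only [e0, g3]
        · rcases C.f33_8 with g4 | g4
          · linarith only [C.b5, C.f11_0, C.f11_1, C.f22_4, C.f33_7, C.o1, C.o2, g3, g4, s2]
          · rcases (Ctx0_p22_33A C) with g5 | g5 | g5 | g5 | g5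
            · linarith only [C.f22_1, C.o0, e0, g1, g5, s1]
            · linarith only [C.a4, C.f11_0, C.f22_1, C.f33_1, C.o0, C.o1, e0, g5, s1]
            · linarith only [C.f11_0, C.o0, g5, s1]
            · linarith only [C.f11_0, C.f11_1, C.o1, g3, g5, s2]
            · rcases C.t23 with g6 | g6
              · rcases (Ctx0_p22_33B C) with g7 | g7 | g7 | g7 | g7
                · linarith only [C.f22_1, C.o0, e0, g1, g7, s1]
                · linarith only [C.a4, C.f11_0, C.f22_1, C.f33_1, C.o0, C.o1, e0, g7, s1]
                · linarith only [C.f11_0, C.o0, g7, s1]
                · linarith only [C.f11_0, C.f11_1, C.o1, g3, g7, s2]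
                · rcases (Ctx0_tmzp C) with g8 | g8 | g8 | g8 | g8 | g8
                  · linarith only [C.f11_0, C.f22_0, C.f33_0, C.o0, g8, s1]
                  · linarith only [g6.1, g8]
                  · linarith only [C.f11_0, C.f11_1, C.f22_4, C.f33_4, C.o1, g3, g8, s2]
                  · linarith only [e0, g8]
                  · linarith only [C.f11_0, C.f11_1, C.f11_2, C.f22_6, g2, g4, g5, g8, s3]
                  · rcases (Ctx0_tzmp C) with g9 | g9 | g9 | g9
                    · linarith only [C.b3, C.f11_1, C.f22_4, C.f33_3, C.o0, g1, g9, s2]
                    · linarith only [C.f11_0, C.f11_1, C.f22_4, C.f33_4, C.o1, g3, g9, s2]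
                    · linarith only [C.f22_1, C.o0, g1, g9, s1]
                    · rcases (Ctx0_tpmm C) with g10 | g10 | g10 | g10 | g10
                      · linarith only [C.o0, e0, g10]
                      · linarith only [C.f11_0, C.f11_1, C.f11_2, C.f22_6, C.f33_3, C.o0, g1, g10, g4, g5, s2, s3]
                      · linarith only [C.f11_0, C.f22_0, C.f33_0, C.o0, g10, s1]
                      · linarith only [C.f22_1, C.o0, g1, g10, s1]
                      · rcases (Ctx0_tpmz C) with g11 | g11 | g11 | g11 | g11 | g11
                        · linarith only [C.o0, e0, g11]
                        · linarith only [C.f11_0, C.f11_1, C.f11_2, C.f22_6, C.f33_3, C.o0, g1, g11, g4, g5, s2, s3]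
                        · linarith only [C.f11_0, C.f11_1, C.f22_4, C.f33_4, C.o1, g11, g3, s2]
                        · linarith only [C.f11_0, C.f22_0, C.f33_0, C.o0, g11, s1]
                        · linarith only [C.f22_1, C.o0, g1, g11, s1]
                        · rcases C.f13_5 with g12 | g12
                          · rcases C.f13_8 with g13 | g13
                            · linarith only [C.f11_0, C.f11_1, C.f11_2, C.f13_7, C.o0, g0, g10, g12, g13, g5, s3]
                            · rcases C.f33_2 with g14 | g14
                              · rcases (Ctx0_p11_33B C) with g15 | g15 | g15 | g15 | g15
                                · linarith only [e0, g15]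
                                · linarith only [C.a4, C.f11_0, C.f22_1, C.f33_1, C.o0, C.o1, e0, g15, s1]
                                · linarith only [C.f11_0, C.f22_0, C.o0, g14, g15, s1]
                                · linarith only [C.f22_4, C.o1, g15, s2]
                                · rcases (Ctx0_p13_22A C) with g16 | g16 | g16 | g16 | g16 | g16
                                  · linarith only [C.o0, e0, g16]
                                  · linarith only [C.b4, C.f11_0, C.f22_1, C.f33_1, C.o0, C.o2, e0, g16, s1]
                                  · linarith only [C.f22_1, C.o0, e0, g1, g16, s1]
                                  · linarith only [g0, g1, g16, s1]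
                                  · rcases (Ctx0_p13_22B C) with g17 | g17 | g17 | g17 | g17 | g17
                                    · linarith only [C.o0, e0, g17]
                                    · linarith only [C.b4, C.f11_0, C.f22_1, C.f33_1, C.o0, C.o2, e0, g17, s1]
                                    · linarith only [C.f22_1, C.o0, e0, g1, g17, s1]
                                    · linarith only [C.o0, g0, g1, g17, s1]
                                    · linarith only [C.f11_0, C.f11_1, C.f11_2, C.o0, g0, g10, g12, g17, g2, g5, g8, s3]
                                    · rcases (Ctx0_p13_33A C) with g18 | g18 | g18 | g18 | g18 | g18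
                                      · linarith only [C.o0, e0, g18]
                                      · linarith only [C.b4, C.f11_0, C.f22_1, C.f33_1, C.o0, C.o2, e0, g18, s1]
                                      · linarith only [C.a4, C.f11_0, C.f22_1, C.f33_1, C.o0, C.o1, e0, g18, s1]
                                      · linarith only [C.f11_0, C.f22_0, C.o0, g0, g14, g18, s1]
                                      · linarith only [C.f11_0, C.f11_1, C.f22_4, C.o0, C.o1, g0, g12, g18, s2]
                                      · rcases (Ctx0_p13_33B C) with g19 | g19 | g19 | g19 | g19 | g19
                                        · linarith only [C.o0, e0, g19]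
                                        · linarith only [C.b4, C.f11_0, C.f22_1, C.f33_1, C.o0, C.o2, e0, g19, s1]
                                        · linarith only [C.a4, C.f11_0, C.f22_1, C.f33_1, C.o0, C.o1, e0, g19, s1]
                                        · linarith only [C.f11_0, C.f22_0, C.o0, g0, g14, g19, s1]
                                        · linarith only [C.f11_0, C.f11_1, C.f22_4, C.o0, C.o1, g0, g12, g19, s2]
                                        · rcases (Ctx0_tzpm C) with g20 | g20 | g20 | g20 | g20
                                          · linarith only [g20, g6.1]
                                          · linarith only [C.f11_0, C.f11_1, C.f11_2, C.f22_6, C.f33_7, C.o0, g0, g12, g16, g20, s3]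
                                          · linarith only [C.f11_0, C.f11_1, C.f11_2, g10, g20, g5, g8, s3]
                                          · linarith only [C.f11_0, C.f11_1, C.f33_4, C.o0, C.o1, C.o2, g0, g12, g16, g20, s2]
                                          · rcases (Ctx0_p11_13B C) with g21 | g21 | g21 | g21 | g21 | g21
                                            · linarith only [e0, g21]
                                            · linarith only [C.o0, e0, g21]
                                            · linarith only [C.a4, C.f11_0, C.f22_1, C.f33_1, C.o0, C.o2, e0, g20.1, g21, s1]
                                            · linarith only [C.f11_0, C.f11_1, C.f22_4, C.f33_3, g0, g1, g20.1, g21, g3, s2]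
                                            · linarith only [C.f11_1, C.f11_2, C.f22_6, C.f33_3, g0, g1, g10, g12, g20.1, g21, g4, g5, g8, s2, s3]
                                            · rcases (Ctx0_tpzm C) with g22 | g22 | g22 | g22 | g22 | g22 | g22 | g22
                                              · linarith only [C.o0, e0, g22]
                                              · linarith only [C.f11_1, C.f22_4, C.f33_3, g1, g20.1, g22, s2]
                                              · linarith only [C.b5, C.o2, g20.1, g22]
                                              · linarith only [C.f11_0, C.f22_0, C.f33_0, C.o0, g22, s1]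
                                              · linarith only [C.f22_1, C.o0, g1, g22, s1]
                                              · linarith only [C.f11_0, C.f11_1, C.f22_4, C.f33_4, C.o2, g20.1, g22, g3, s2]
                                              · rcases C.f23_7 with g23 | g23 | g23
                                                · rcases C.f23_3 with g24 | g24 | g24
                                                  · linarith only [C.f11_0, C.f11_1, C.f22_0, C.f22_4, C.f23_5, C.f33_0, C.f33_3, C.o0, g20.1, g23, g24, s1, s2]
                                                  · linarith only [C.f11_1, C.f22_1, C.f22_4, C.f23_5, C.f33_3, g1, g20.1, g23, g24, s1, s2]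
                                                  · linarith only [C.f11_0, C.f11_1, C.f22_1, C.f22_4, C.f23_5, C.f33_4, C.o0, C.o2, g1, g20.1, g23, g24, s1, s2]
                                                · rcases C.f23_10 with g24 | g24
                                                  · linarith only [C.b5, C.f23_9, g20.1, g23, g24]
                                                  · rcases (Ctx0_p13_23A C) with g25 | g25 | g25 | g25 | g25 | g25
                                                    · linarith only [C.o0, e0, g25]
                                                    · linarith only [C.a4, C.f11_0, C.f22_1, C.f33_1, C.o0, C.o2, e0, g20.1, g25, s1]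
                                                    · linarith only [C.o0, e0, g25, g6.1]
                                                    · rcases C.f23_3 with g26 | g26 | g26
                                                      · linarith only [C.f11_0, C.f22_0, C.f33_0, C.o0, g0, g25, g26, s1]
                                                      · linarith only [C.f22_1, g0, g1, g20.1, g25, g26, s1]
                                                      · linarith only [C.f11_0, C.f11_1, C.f22_4, C.f23_1, C.f33_4, C.o2, g20.1, g26, g3, s2]
                                                    · linarith only [C.f11_1, C.f22_4, C.f33_3, g0, g1, g12, g20.1, g23, g25, s2]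
                                                    · linarith only [C.o2, g13, g24, g25]
                                                · linarith only [C.f11_0, C.f11_1, C.f22_4, C.f23_5, C.f33_4, C.o2, g20.1, g23, g3, s2]
                                              · linarith only [g20.1, g22.2]
                                  · linarith only [C.b5, C.f22_6, C.o2, g13, g16, g2]
                              · linarith only [C.f11_1, C.f11_2, C.f13_4, C.f22_1, g0, g1, g10, g12, g14, g5, g8, s1, s3]
                          · rcases C.f13_8 with g13 | g13
                            · linarith only [C.f11_0, C.f11_1, C.f13_7, C.f22_4, C.f33_4, C.o1, g12, g13, g3, g6.2, s2]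
                            · rcases (Ctx0_p11_13A C) with g14 | g14 | g14 | g14 | g14 | g14
                              · linarith only [e0, g14]
                              · linarith only [C.o0, e0, g14]
                              · linarith only [C.b4, C.f11_0, C.f22_1, C.f33_1, C.o0, C.o2, e0, g14, s1]
                              · rcases (Ctx0_p11_13B C) with g15 | g15 | g15 | g15 | g15 | g15
                                · linarith only [e0, g15]
                                · linarith only [C.o0, e0, g15]
                                · linarith only [C.b4, C.f11_0, C.f22_1, C.f33_1, C.o0, C.o2, e0, g15, s1]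
                                · linarith only [C.f11_1, C.f13_3, C.f22_4, C.f33_4, C.o1, C.o2, g12, g15, g3, s2]
                                · linarith only [C.f22_4, C.f33_4, C.o1, C.o2, g12, g15, s2]
                                · rcases (Ctx0_p13_22A C) with g16 | g16 | g16 | g16 | g16 | g16
                                  · linarith only [C.o0, e0, g16]
                                  · linarith only [C.b4, C.f11_0, C.f22_1, C.f33_1, C.o0, C.o2, e0, g16, s1]
                                  · linarith only [C.f22_1, C.o0, e0, g1, g16, s1]
                                  · linarith only [g0, g1, g16, s1]
                                  · linarith only [C.f11_2, C.f33_4, g12, g13, g15, g16, g6.2, s2]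
                                  · linarith only [C.f33_7, g13, g15, g16, s3]
                              · linarith only [C.f22_4, C.f33_4, C.o1, C.o2, g12, g14, s2]
                              · linarith only [C.o2, g13, g14, g5, s3]
              · linarith only [C.f22_6, C.o2, g2, g4, g5, g6.2]
    · linarith only [C.f22_4, C.o1, g1, s2]
    · rcases C.f33_8 with g2 | g2
      · linarith only [C.f11_2, C.f22_4, C.f22_6, C.o1, g1, g2, s2, s3]
      · linarith only [C.b3, C.f11_0, C.f11_1, C.f11_2, C.f22_4, C.f22_6, g1, g2, s3]
  · linarith only [C.a4, C.f11_0, C.f13_0, C.f22_1, C.f33_1, C.o0, C.o1, C.o2, g0, s1]

end Pool.Agent.Helper94.TQ
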