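import Pool.Agent.Helper94.TQ.Facts

set_option autoImplicit false
set_option linter.all false
set_option maxHeartbeats 4000000

namespace Pool.Agent.Helper94.TQ

open Pool.Agent.Helper89.TQ

theorem c0_13_22_33_k2 {n1 n2 n3 A1 A2 A3 B1 B2 B3 m11_1 m11_2 m11_3 m13_1 m13_2 m13_3 m22_1 m22_2 m22_3 m23_1 m23_2 m23_3 m33_1 m33_2 m33_3 : ℤ}
    (C : Ctx0 n1 n2 n3 A1 A2 A3 B1 B2 B3 m11_1 m11_2 m11_3 m13_1 m13_2 m13_3 m22_1 m22_2 m22_3 m23_1 m23_2 m23_3 m33_1 m33_2 m33_3)
    (e0 : 0 < A1)
    (e1 : 0 < B3)
    (e2 : 0 < B2)
    (e3 : 0 < A3)
    (s1 : 2 * A1 + 1 * B1 ≤ m13_1 + m22_1 + m33_1)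
    (s2 : 2 * A2 + 1 * B2 ≤ m13_2 + m22_2 + m33_2)
    (s3 : 2 * A3 + 1 * B3 ≤ m13_3 + m22_3 + m33_3) : False := by
  rcases C.f13_2 with g0 | g0
  · rcases (Ctx0_p13_33A C) with g1 | g1 | g1 | g1 | g1 | g1
    · linarith only [e0, g1]
    · linarith only [C.o2, e3, g1]
    · linarith only [e3, g1]
    · rcases C.f22_5 with g2 | g2
      · linarith only [C.b3, C.f22_4, g1, g2, s1]
      · rcases (Ctx0_tpmm C) with g3 | g3 | g3 | g3 | g3
        · linarith only [e0, g3]
        · rcases C.f13_5 with g4 | g4
          · rcases C.f13_8 with g5 | g5
            · linarith only [C.b3, C.b5, C.f13_7, C.o0, g0, g4, g5]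
            · rcases C.f33_2 with g6 | g6
              · rcases C.f33_8 with g7 | g7
                · linarith only [C.f13_0, C.f13_3, C.f13_7, C.f22_4, C.f22_6, C.f33_7, C.o1, g3, g7, s2, s3]
                · rcases (Ctx0_p13_33B C) with g8 | g8 | g8 | g8 | g8 | g8
                  · linarith only [e0, g8]
                  · linarith only [C.o2, e3, g8]
                  · linarith only [e3, g8]
                  · linarith only [C.f22_0, C.o0, g0, g6, g8, s1]
                  · linarith only [C.f22_4, C.o1, g8, s2]
                  · rcases (Ctx0_p22_33B C) with g9 | g9 | g9 | g9 | g9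
                    · linarith only [e2, g9]
                    · linarith only [e3, g9]
                    · linarith only [C.f13_0, C.o0, g9, s1]
                    · linarith only [C.f13_0, C.f13_3, C.o1, g3, g9, s2]
                    · rcases (Ctx0_tzmp C) with g10 | g10 | g10 | g10
                      · linarith only [C.f13_3, C.f22_4, C.f33_3, g1, g10, s2]
                      · linarith only [C.f13_0, C.f13_3, C.f22_4, C.f33_4, g10, g3, s2]
                      · linarith only [C.f22_1, g1, g10, s1]
                      · rcases (Ctx0_tzpm C) with g11 | g11 | g11 | g11 | g11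
                        · linarith only [C.b3, C.f22_1, g1, g11, g3, s1]
                        · linarith only [C.f13_7, C.f22_4, C.f22_6, C.f33_7, C.o1, g11, s3]
                        · rcases C.t12 with g12 | g12
                          · rcases (Ctx0_tpzm C) with g13 | g13 | g13 | g13 | g13 | g13 | g13 | g13
                            · linarith only [e0, g13]
                            · linarith only [g12.2, g13]
                            · linarith only [C.f13_7, C.f22_4, C.f22_6, C.f33_7, C.o1, g13, s3]
                            · linarith only [C.a1, C.o0, g13]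
                            · linarith only [C.f22_1, g1, g13, s1]
                            · linarith only [C.f13_4, C.f22_4, C.f33_4, C.o1, C.o2, g13, s2]
                            · linarith only [C.f13_7, C.f22_4, C.f22_6, C.f33_7, g10, g13, s3]
                            · rcases (Ctx0_p22_33A C) with g14 | g14 | g14 | g14 | g14
                              · linarith only [e2, g14]
                              · linarith only [e3, g14]
                              · linarith only [C.f13_0, g13.1, g14, s1]
                              · linarith only [C.f13_0, C.f13_3, g11, g13.1, g14, s2]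
                              · linarith only [C.f13_7, g14, s3]
                          · linarith only [g11, g12.2]
                        · linarith only [C.f13_0, C.f13_3, C.f22_4, C.f33_4, C.o1, C.o2, g11, g3, s2]
                        · linarith only [C.f13_7, C.f22_4, C.f22_6, C.f33_7, g10, g11.2, s3]
              · linarith only [C.b3, C.f13_3, C.f22_1, C.f22_4, C.f33_4, g1, g3, g6, s1, s2]
          · linarith only [C.f13_0, C.f13_3, C.f22_4, C.f33_4, C.o2, g3, g4, s2]
        · linarith only [C.a1, C.o0, g3]
        · linarith only [C.f22_1, g1, g3, s1]
        · rcases (Ctx0_p13_22B C) with g4 | g4 | g4 | g4 | g4 | g4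
          · linarith only [e0, g4]
          · linarith only [C.o2, e3, g4]
          · linarith only [e2, g4]
          · linarith only [C.o0, g0, g1, g4, s1]
          · rcases C.f13_5 with g5 | g5
            · rcases C.t12 with g6 | g6
              · rcases C.f13_8 with g7 | g7
                · linarith only [C.b3, C.f13_7, C.f22_4, C.f22_6, C.f33_7, C.o0, g0, g3, g5, g7, s3]
                · rcases C.f33_2 with g8 | g8
                  · rcases C.f33_8 with g9 | g9
                    · linarith only [C.f13_7, C.f22_4, C.f22_6, C.f33_7, C.o1, g4, g9, s2, s3]
                    · rcases (Ctx0_p13_33B C) with g10 | g10 | g10 | g10 | g10 | g10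
                      · linarith only [e0, g10]
                      · linarith only [C.o2, e3, g10]
                      · linarith only [e3, g10]
                      · linarith only [C.f22_0, C.o0, g0, g10, g8, s1]
                      · linarith only [C.f22_4, C.o1, g10, s2]
                      · rcases (Ctx0_p22_33A C) with g11 | g11 | g11 | g11 | g11
                        · linarith only [e2, g11]
                        · linarith only [e3, g11]
                        · linarith only [C.b3, g11, g2, g4, g5, s1]
                        · linarith only [g11, g2, g4, s2]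
                        · linarith only [C.f13_7, g11, s3]
                  · linarith only [C.a2, C.f33_4, C.o1, g0, g1, g4, g8, s2]
              · linarith only [C.o0, g0, g2, g4, g5, g6.2]
            · linarith only [C.f33_4, C.o1, C.o2, g2, g4, g5, s2]
          · linarith only [C.f33_7, g3, g4, s3]
    · linarith only [C.f22_4, g1, s2]
    · rcases C.f13_8 with g2 | g2
      · rcases C.f13_5 with g3 | g3
        · linarith only [C.b3, C.f13_7, C.f22_4, C.f22_6, C.o0, g0, g1, g2, g3, s3]
        · linarith only [C.f13_7, C.f22_4, C.f22_6, C.f33_4, C.o1, C.o2, g1, g2, g3, s2, s3]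
      · rcases (Ctx0_p13_22B C) with g3 | g3 | g3 | g3 | g3 | g3
        · linarith only [e0, g3]
        · linarith only [C.o2, e3, g3]
        · linarith only [e2, g3]
        · rcases C.f22_2 with g4 | g4
          · linarith only [C.f33_0, C.o0, g0, g3, g4, s1]
          · rcases C.t23 with g5 | g5
            · rcases C.f22_5 with g6 | g6
              · linarith only [C.a3, C.f22_4, g4, g5.1, g6]
              · rcases (Ctx0_p11_33A C) with g7 | g7 | g7 | g7 | g7
                · linarith only [C.o0, e2, g0, g3, g4, g7]
                · linarith only [C.f33_1, C.o0, e0, g3, g7, s1]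
                · linarith only [C.f11_0, g3, g7, s1]
                · linarith only [C.b2, C.f11_0, C.f11_1, C.f13_3, C.f22_4, g3, g4, g7, s2]
                · linarith only [C.b3, C.f11_0, C.f11_1, C.f11_2, C.f13_7, C.f22_4, C.f22_6, g7, s3]
            · linarith only [C.o0, g0, g3, g4, g5.1]
        · rcases C.f33_8 with g4 | g4
          · linarith only [C.f22_4, C.f22_6, C.f33_7, C.o1, C.o2, g1, g3, g4, s2, s3]
          · rcases (Ctx0_tzmp C) with g5 | g5 | g5 | g5
            · rcases C.t12 with g6 | g6
              · linarith only [g5, g6.2]
              · rcases C.f13_5 with g7 | g7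
                · rcases C.f22_5 with g8 | g8
                  · rcases C.f22_2 with g9 | g9
                    · linarith only [C.f13_0, C.f22_4, C.f33_0, C.o0, g6.2, g8, g9, s1]
                    · linarith only [C.b2, C.o0, g0, g3, g6.2, g7, g8, g9]
                  · linarith only [C.o0, g0, g3, g6.2, g7, g8]
                · linarith only [C.f13_0, C.f13_3, C.f33_4, C.o0, C.o2, g3, g5, g6.2, g7, s2]
            · linarith only [C.f33_4, C.o1, g3, g5, s2]
            · rcases C.t23 with g6 | g6
              · rcases C.f22_2 with g7 | g7
                · linarith only [C.f13_0, C.f22_1, C.f33_0, C.o0, g5, g7, s1]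
                · rcases C.f22_5 with g8 | g8
                  · linarith only [C.a3, C.f22_4, g6.1, g7, g8]
                  · rcases C.f13_5 with g9 | g9
                    · linarith only [C.a3, C.o0, g0, g3, g5, g6.1, g8, g9]
                    · linarith only [C.f33_4, C.o0, C.o2, g3, g5, g6.1, g8, g9, s2]
              · linarith only [g5, g6.1]
            · linarith only [C.f22_4, C.f22_6, g1, g5, s3]
        · linarith only [g1, g2, g3, s3]
  · linarith only [C.a2, C.f13_0, C.f13_4, C.f22_4, C.f33_4, C.o2, g0, s2]

end Pool.Agent.Helper94.TQ
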