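import Pool.Agent.Helper94.TQ.Facts

set_option autoImplicit false
set_option linter.all false
set_option maxHeartbeats 4000000

namespace Pool.Agent.Helper94.TQ

open Pool.Agent.Helper89.TQ

theorem c0_13_22_33_k3 {n1 n2 n3 A1 A2 A3 B1 B2 B3 m11_1 m11_2 m11_3 m13_1 m13_2 m13_3 m22_1 m22_2 m22_3 m23_1 m23_2 m23_3 m33_1 m33_2 m33_3 : ℤ}
    (C : Ctx0 n1 n2 n3 A1 A2 A3 B1 B2 B3 m11_1 m11_2 m11_3 m13_1 m13_2 m13_3 m22_1 m22_2 m22_3 m23_1 m23_2 m23_3 m33_1 m33_2 m33_3)
    (e0 : 0 < A1)
    (e1 : 0 < B3)
    (e2 : 0 < B2)
    (e3 : 0 < A3)
    (s1 : 3 * A1 + 0 * B1 ≤ m13_1 + m22_1 + m33_1)
    (s2 : 3 * A2 + 0 * B2 ≤ m13_2 + m22_2 + m33_2)
    (s3 : 3 * A3 + 0 * B3 ≤ m13_3 + m22_3 + m33_3) : F1 n1 n2 n3 A1 A2 A3 B1 B2 B3 ∨ F2 n1 n2 n3 A1 A2 A3 B1 B2 B3 := by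
  by_contra hF
  have hn1 : ¬ F1 n1 n2 n3 A1 A2 A3 B1 B2 B3 := fun h => hF (Or.inl h)
  have hn2 : ¬ F2 n1 n2 n3 A1 A2 A3 B1 B2 B3 := fun h => hF (Or.inr h)
  rcases C.f13_2 with g0 | g0
  · rcases (Ctx0_tpmm C) with g1 | g1 | g1 | g1 | g1
    · linarith only [e0, g1]
    · rcases C.f13_5 with g2 | g2
      · rcases C.f13_8 with g3 | g3
        · linarith only [C.b3, C.b5, C.f13_7, C.o0, g0, g2, g3]
        · rcases C.f33_8 with g4 | g4
          · linarith only [C.b5, C.f13_0, C.f13_3, C.f13_7, C.f22_4, C.f22_6, C.f33_7, C.o1, g1, g4, s2, s3]
          · rcases (Ctx0_p13_33B C) with g5 | g5 | g5 | g5 | g5 | g5
            · linarith only [e0, g5]
            · linarith only [C.o2, e3, g5]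
            · linarith only [e3, g5]
            · linarith only [C.f13_3, C.f22_4, C.f33_3, C.o0, C.o1, g1, g5, s2]
            · linarith only [C.f22_4, C.o1, g5, s2]
            · rcases (Ctx0_p22_33A C) with g6 | g6 | g6 | g6 | g6
              · linarith only [e2, g6]
              · linarith only [e3, g6]
              · linarith only [C.f13_0, g6, s1]
              · linarith only [C.f13_0, C.f13_3, g1, g6, s2]
              · rcases C.f22_5 with g7 | g7
                · rcases C.f22_2 with g8 | g8
                  · linarith only [C.b3, C.f13_0, C.f22_4, C.f33_0, C.o0, g7, g8, s1]
                  · linarith only [C.a2, C.a3, C.b5, C.f13_7, C.f22_6, g4, g6, g7, g8, s3]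
                · linarith only [C.b5, C.f13_7, C.f22_6, g4, g6, g7, s3]
      · linarith only [C.f13_0, C.f13_3, C.f22_4, C.f33_4, C.o1, C.o2, g1, g2, s2]
    · linarith only [C.f13_0, C.f22_0, C.f33_0, C.o0, g1, s1]
    · rcases C.f22_2 with g2 | g2
      · linarith only [C.f13_0, C.f22_1, C.f33_0, C.o0, g1, g2, s1]
      · rcases (Ctx0_p13_33A C) with g3 | g3 | g3 | g3 | g3 | g3
        · linarith only [e0, g3]
        · linarith only [C.o2, e3, g3]
        · linarith only [e3, g3]
        · linarith only [C.f22_1, C.o0, g1, g3, s1]
        · linarith only [C.f22_4, C.o1, g3, s2]
        · rcases (Ctx0_p13_33B C) with g4 | g4 | g4 | g4 | g4 | g4
          · linarith only [e0, g4]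
          · linarith only [C.o2, e3, g4]
          · linarith only [e3, g4]
          · linarith only [C.f22_1, C.o0, g1, g4, s1]
          · linarith only [C.f22_4, C.o1, g4, s2]
          · rcases (Ctx0_p11_33A C) with g5 | g5 | g5 | g5 | g5
            · rcases C.t12 with g6 | g6
              · rcases C.f22_5 with g7 | g7
                · linarith only [C.a2, C.f22_4, g2, g6.2, g7]
                · rcases C.f23_3 with g8 | g8 | g8
                  · rcases C.f23_7 with g9 | g9 | g9
                    · linarith only [C.f13_0, C.f22_0, C.f23_5, C.f33_0, g6.2, g8, g9, s1]
                    · rcases C.f23_10 with g10 | g10
                      · linarith only [C.b5, C.f13_0, C.f22_1, C.f23_1, C.f23_9, C.f33_0, C.o0, g1, g10, g8, g9, s1]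
                      · rcases (Ctx0_p11_23B C) with g11 | g11 | g11 | g11 | g11 | g11
                        · rcases (Ctx0_p22_23A C) with g12 | g12 | g12 | g12 | g12 | g12
                          · linarith only [e2, g12]
                          · linarith only [C.f13_0, C.f22_1, C.f23_1, C.f33_0, C.o1, e0, g12, g8, s1]
                          · linarith only [C.o2, e3, g12]
                          · linarith only [C.f13_0, C.f33_0, g12, g8, s1]
                          · rcases (Ctx0_p22_23B C) with g13 | g13 | g13 | g13 | g13 | g13
                            · linarith only [e2, g13]
                            · linarith only [C.f13_0, C.f22_1, C.f23_1, C.f33_0, C.o1, e0, g13, g8, s1]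
                            · linarith only [C.o2, e3, g13]
                            · linarith only [C.f13_0, C.f33_0, C.o0, g13, g8, s1]
                            · linarith only [C.f13_0, C.f22_1, C.f23_1, C.f33_0, C.o0, g1, g13, g7, g8, g9, s1]
                            · rcases (Ctx0_p13_23A C) with g14 | g14 | g14 | g14 | g14 | g14
                              · linarith only [e0, g14]
                              · linarith only [C.o2, e3, g14]
                              · linarith only [C.f13_0, C.f22_1, C.f23_1, C.f33_0, C.o1, e0, g14, g8, s1]
                              · linarith only [C.f22_1, C.f33_0, C.o0, g1, g14, g8, s1]
                              · rcases C.f13_5 with g15 | g15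
                                · linarith only [C.f22_4, C.f23_1, C.f33_0, C.f33_3, C.o0, g0, g1, g14, g15, g8, g9, s2]
                                · linarith only [C.f13_0, C.f22_1, C.f22_4, C.f23_1, C.f33_0, C.f33_4, C.o0, C.o2, g1, g14, g15, g8, g9, s1, s2]
                              · linarith only [C.f33_7, g10, g13, g14, s3]
                          · linarith only [C.f13_7, C.f33_7, g10, g12, s3]
                        · linarith only [C.f13_0, C.f22_1, C.f23_1, C.f33_0, C.o1, e0, g11, g8, s1]
                        · linarith only [C.o2, e3, g11]
                        · linarith only [C.f11_0, C.f13_0, C.f22_1, C.f33_0, C.o0, g1, g11, g8, s1]
                        · linarith only [C.f11_0, C.f11_1, C.f13_0, C.f22_1, C.f23_1, C.f33_0, C.o0, g1, g11, g6.2, g8, g9, s1]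
                        · linarith only [C.b5, C.f11_0, C.f11_1, C.f11_2, C.f13_0, C.f13_3, C.f22_1, C.f22_4, C.f23_1, C.f33_0, C.f33_3, C.o0, g1, g10, g11, g8, s1, s2]
                    · linarith only [C.f13_0, C.f13_4, C.f22_1, C.f22_4, C.f23_5, C.f33_1, C.f33_4, C.o0, C.o2, g1, g9, s1, s2]
                  · rcases C.f23_7 with g9 | g9 | g9
                    · linarith only [C.a2, C.f23_5, g6.2, g8, g9]
                    · rcases (Ctx0_tzpm C) with g10 | g10 | g10 | g10 | g10
                      · rcases C.t23 with g11 | g11
                        · linarith only [g10, g11.1]
                        · rcases C.f23_10 with g12 | g12
                          · linarith only [C.f23_9, C.o1, g11.2, g12, g9]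
                          · rcases (Ctx0_tzmp C) with g13 | g13 | g13 | g13
                            · linarith only [g13, g6.2]
                            · linarith only [C.f13_0, C.f22_1, C.f33_1, C.o0, g1, g10, g13, s1]
                            · linarith only [g11.1, g13]
                            · rcases C.f33_5 with g14 | g14
                              · rcases C.f13_5 with g15 | g15
                                · rcases C.f13_8 with g16 | g16
                                  · linarith only [C.b3, C.f13_7, C.o0, g0, g11.2, g15, g16]
                                  · rcases C.f33_2 with g17 | g17
                                    · rcases C.f33_8 with g18 | g18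
                                      · linarith only [C.b3, C.f13_0, C.f22_1, C.f33_7, C.o0, C.o2, g1, g11.2, g14, g18, s1]
                                      · rcases (Ctx0_p22_33A C) with g19 | g19 | g19 | g19 | g19
                                        · linarith only [e2, g19]
                                        · linarith only [C.b3, C.f13_0, C.f22_1, C.f33_4, C.o0, e0, g14, g19, s1]
                                        · linarith only [C.f13_0, g19, s1]
                                        · linarith only [C.f13_0, C.f22_1, g10, g14, g19, g6.2, g7, s1]
                                        · linarith only [C.f13_7, C.f22_6, g11.2, g18, g19, g7, s3]
                                    · linarith only [C.a2, C.f33_4, g14, g17, g6.2]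
                                · linarith only [C.f13_0, C.f13_3, C.f22_1, C.f33_4, C.o0, C.o2, g1, g14, g15, s1]
                              · rcases C.f33_8 with g15 | g15
                                · linarith only [C.f13_4, C.f22_4, C.f33_7, C.o1, C.o2, g11.2, g14, g15, s2]
                                · rcases (Ctx0_p22_33A C) with g16 | g16 | g16 | g16 | g16
                                  · linarith only [e2, g16]
                                  · linarith only [e3, g16]
                                  · linarith only [C.f13_0, g16, s1]
                                  · linarith only [C.f13_0, C.f22_1, C.f33_1, g10, g14, g16, g7, s1]
                                  · linarith only [C.f13_7, C.f22_6, g11.2, g15, g16, g7, s3]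
                      · linarith only [C.f22_4, C.f22_6, C.o1, g10, g3, s3]
                      · rcases C.t23 with g11 | g11
                        · linarith only [g1, g10, g11.1, g6.2]
                        · rcases C.f13_5 with g12 | g12
                          · rcases C.f13_8 with g13 | g13
                            · linarith only [C.b3, C.f13_7, C.o0, g0, g11.2, g12, g13]
                            · rcases C.f23_10 with g14 | g14
                              · linarith only [C.f23_9, C.o1, g11.2, g14, g9]
                              · rcases C.f33_8 with g15 | g15
                                · linarith only [C.a2, C.f13_0, C.f13_3, C.f22_4, C.f33_7, C.o1, C.o2, g1, g10, g11.2, g15, s2]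
                                · rcases (Ctx0_p22_33A C) with g16 | g16 | g16 | g16 | g16
                                  · linarith only [e2, g16]
                                  · linarith only [e3, g16]
                                  · linarith only [C.f13_0, g16, s1]
                                  · linarith only [C.a2, C.f13_0, C.f13_3, g1, g10, g16, s2]
                                  · linarith only [g15, g16, g3, s3]
                          · linarith only [C.f13_0, C.f13_3, C.f22_1, C.f33_1, C.o0, C.o2, g1, g10, g12, s1]
                      · linarith only [C.f13_0, C.f22_1, C.f33_1, C.o0, C.o2, g1, g10, s1]
                      · rcases C.f23_10 with g11 | g11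
                        · linarith only [C.f22_4, C.f22_6, C.f23_9, g10.1, g10.2, g11, g3, g9, s3]
                        · rcases (Ctx0_p22_33A C) with g12 | g12 | g12 | g12 | g12
                          · linarith only [e2, g12]
                          · linarith only [C.f13_0, C.f13_4, C.f22_1, C.f22_4, C.f33_1, C.f33_4, e0, g10.1, g10.2, g12, s1, s2]
                          · linarith only [C.f13_0, g12, s1]
                          · rcases C.f13_8 with g13 | g13
                            · linarith only [C.b5, C.f13_7, g10.1, g12, g13, s2]
                            · rcases (Ctx0_p11_23B C) with g14 | g14 | g14 | g14 | g14 | g14
                              · rcases (Ctx0_p13_22B C) with g15 | g15 | g15 | g15 | g15 | g15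
                                · linarith only [e0, g15]
                                · linarith only [C.f13_4, C.f22_4, C.f33_4, C.o2, e2, g10.1, g15, s2]
                                · linarith only [e2, g15]
                                · linarith only [C.o0, e2, g0, g15, g2, g5]
                                · linarith only [g10.1, g12, g15, g7, s2]
                                · rcases (Ctx0_p13_23A C) with g16 | g16 | g16 | g16 | g16 | g16
                                  · linarith only [e0, g16]
                                  · linarith only [C.f13_4, C.f22_4, C.f33_4, C.o2, e2, g10.1, g16, s2]
                                  · linarith only [e2, g10.1, g16]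
                                  · rcases C.f33_5 with g17 | g17
                                    · linarith only [C.f13_0, C.f13_3, C.f22_1, g12, g16, g17, g7, g8, s1, s2]
                                    · rcases C.f33_8 with g18 | g18
                                      · linarith only [C.b5, C.f13_4, C.f22_4, C.f22_6, C.f33_7, g10.1, g17, g18, g3, s2, s3]
                                      · rcases (Ctx0_p11_33B C) with g19 | g19 | g19 | g19 | g19
                                        · rcases (Ctx0_p13_23B C) with g20 | g20 | g20 | g20 | g20 | g20
                                          · linarith only [e0, g20]
                                          · linarith only [C.f13_4, C.f22_4, C.f33_4, C.o2, e2, g10.1, g20, s2]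
                                          · linarith only [e2, g10.1, g20]
                                          · linarith only [C.o0, e2, g0, g10.1, g20, g5, g8]
                                          · linarith only [g10.1, g12, g20, g9, s2]
                                          · rcases (Ctx0_p22_33B C) with g21 | g21 | g21 | g21 | g21
                                            · linarith only [e2, g21]
                                            · linarith only [C.f13_0, C.f13_4, C.f22_1, C.f22_4, C.f33_1, C.f33_4, e0, g10.1, g10.2, g21, s1, s2]
                                            · linarith only [C.f13_0, C.o0, g21, s1]
                                            · linarith only [C.f13_4, g10.1, g10.2, g17, g21, g7, s2]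
                                            · rcases (Ctx0_p23_33A C) with g22 | g22 | g22 | g22 | g22 | g22
                                              · linarith only [e2, g10.1, g22]
                                              · linarith only [C.f13_4, C.f22_4, C.f33_4, C.o2, e2, g10.1, g22, s2]
                                              · linarith only [C.f13_0, C.f13_4, C.f22_1, C.f22_4, C.f33_1, C.f33_4, e0, g10.1, g10.2, g22, s1, s2]
                                              · linarith only [C.f13_0, C.f22_1, g10.1, g22, g8, s1]
                                              · linarith only [C.f13_4, C.f22_4, g10.1, g10.2, g17, g22, g9, s2]
                                              · rcases (Ctx0_p23_33B C) with g23 | g23 | g23 | g23 | g23 | g23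
                                                · linarith only [e2, g10.1, g23]
                                                · linarith only [C.f13_4, C.f22_4, C.f33_4, C.o2, e2, g10.1, g23, s2]
                                                · linarith only [C.f13_0, C.f13_4, C.f22_1, C.f22_4, C.f33_1, C.f33_4, e0, g10.1, g10.2, g23, s1, s2]
                                                · linarith only [C.f13_0, C.f22_1, C.o0, g10.1, g23, g8, s1]
                                                · linarith only [C.f13_4, C.f22_4, g10.1, g10.2, g17, g23, g9, s2]
                                                · rcases (Ctx0_tmzp C) with g24 | g24 | g24 | g24 | g24 | g24
                                                  · linarith only [C.f13_0, C.f22_1, C.f33_0, C.o0, g1, g24, s1]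
                                                  · linarith only [C.f13_0, C.f22_1, C.f33_1, g12, g17, g24, g7, s1]
                                                  · linarith only [C.f13_4, C.f22_4, C.f33_4, g10.1, g10.2, g24, s2]
                                                  · rcases (Ctx0_tzmp C) with g25 | g25 | g25 | g25
                                                    · linarith only [g25, g6.2]
                                                    · linarith only [C.f13_4, C.f22_4, C.f33_4, g10.1, g10.2, g25, s2]
                                                    · linarith only [e2, g25, g5]
                                                    · rcases (Ctx0_tpmz C) with g26 | g26 | g26 | g26 | g26 | g26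
                                                      · linarith only [e0, g26]
                                                      · linarith only [C.f13_0, C.f13_3, g12, g26, s2]
                                                      · linarith only [C.f13_4, C.f22_4, C.f33_4, g10.1, g10.2, g26, s2]
                                                      · linarith only [C.f13_0, C.f22_0, C.f33_0, C.o0, g26, s1]
                                                      · rcases (Ctx0_tpzm C) with g27 | g27 | g27 | g27 | g27 | g27 | g27 | g27
                                                        · linarith only [e0, g27]
                                                        · linarith only [g27, g6.2]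
                                                        · linarith only [C.b5, C.o2, g10.1, g27]
                                                        · linarith only [C.f13_0, C.f22_0, C.f33_0, C.o0, g27, s1]
                                                        · linarith only [e2, g27, g5]
                                                        · linarith only [C.f13_4, C.f22_4, C.f33_4, C.o2, g10.1, g27, s2]
                                                        · rcases (nF2 hn2) with g28 | g28 | g28 | g28 | g28 | g28 | g28 | g28 | g28 | g28 | g28 | g28 | g28 | g28 | g28
                                                          · linarith only [e0, g28]
                                                          · linarith only [C.f13_0, C.f22_1, C.f33_0, g1, g28, g5, s1]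
                                                          · linarith only [C.f13_0, C.f13_3, C.f22_1, C.f33_1, g12, g17, g28, g7, s1, s2]
                                                          · linarith only [C.f13_0, C.f22_1, C.f22_4, C.f22_6, C.f33_1, g1, g28, g3, g5, s1, s3]
                                                          · linarith only [e2, g0, g10.2, g12, g16, g17, g25, g28, g7, g8]
                                                          · linarith only [C.f13_0, C.f22_1, C.f33_1, g12, g17, g28, g7, s1]
                                                          · linarith only [g0, g16, g28, g8]
                                                          · linarith only [C.f22_1, C.f33_1, g1, g16, g28, g5, g8, s1]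
                                                          · linarith only [e2, g0, g12, g16, g17, g28, g7, g8]
                                                          · linarith only [C.b0, g28]
                                                          · linarith only [g28, g5]
                                                          · linarith only [e2, g28, g5]
                                                          · linarith only [g1, g28]
                                                          · linarith only [C.f13_0, C.f22_1, C.f33_1, C.o2, g1, g28, g5, s1]
                                                          · linarith only [e2, g0, g10.2, g12, g16, g17, g28, g7, g8]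
                                                        · linarith only [g10.1, g27.2]
                                                      · linarith only [C.f22_4, C.f22_6, g10.2, g26, g3, s3]
                                                  · linarith only [C.f13_0, C.f13_3, C.f22_1, C.f33_1, g1, g12, g17, g24, g7, s1, s2]
                                                  · linarith only [C.f22_4, C.f22_6, g10.2, g24, g3, s3]
                                        · linarith only [C.f13_0, C.f13_4, C.f22_1, C.f22_4, C.f33_1, C.f33_4, e0, g10.1, g10.2, g19, s1, s2]
                                        · linarith only [C.f11_0, C.f13_0, C.f22_1, C.o0, g1, g19, s1]
                                        · linarith only [C.b3, C.f11_0, C.f11_1, C.f13_0, C.f13_3, C.f22_1, C.f22_4, C.f33_1, g1, g10.1, g17, g19, s1, s2]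
                                        · linarith only [C.f11_0, C.f11_1, C.f11_2, C.f13_0, C.f13_3, C.f13_7, C.f22_1, C.f22_4, C.f22_6, C.f33_1, g1, g10.2, g12, g17, g19, s1, s2, s3]
                                  · linarith only [g12, g16, g9, s2]
                                  · linarith only [C.o2, g11, g13, g16]
                              · linarith only [e2, g10.1, g14]
                              · linarith only [C.f13_4, C.f22_4, C.f33_4, C.o2, e2, g10.1, g14, s2]
                              · linarith only [C.f11_0, e2, g10.1, g14, g5, g8]
                              · linarith only [C.a2, C.f11_0, C.f11_1, C.f13_0, C.f13_3, g1, g10.1, g12, g14, g9, s2]
                              · linarith only [C.a2, C.f11_0, C.f11_1, C.f11_2, C.f13_0, C.f13_3, C.f22_4, C.f22_6, g1, g10.2, g11, g12, g14, g3, s2, s3]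
                          · linarith only [C.f13_7, g10.2, g12, s3]
                    · linarith only [C.f13_0, C.f13_4, C.f22_1, C.f22_4, C.f23_5, C.f33_1, C.f33_4, C.o0, C.o2, g1, g9, s1, s2]
                  · linarith only [C.f13_4, C.f22_4, C.f23_1, C.f33_4, C.o1, C.o2, g8, s2]
              · linarith only [g5, g6.1]
            · linarith only [e3, g5]
            · linarith only [C.f11_0, C.f13_0, C.f22_1, g1, g5, s1]
            · linarith only [C.a2, C.f11_0, C.f11_1, C.f13_0, C.f13_3, C.f22_4, g1, g5, s2]
            · rcases C.f13_5 with g6 | g6
              · rcases C.f13_8 with g7 | g7
                · linarith only [C.b3, C.b5, C.f13_7, C.o0, g0, g6, g7]
                · rcases C.f33_8 with g8 | g8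
                  · linarith only [C.a2, C.f11_0, C.f11_1, C.f11_2, C.f13_0, C.f13_3, C.f22_4, C.f22_6, C.o1, g1, g3, g5, g8, s2, s3]
                  · linarith only [C.b3, C.f11_0, C.f11_1, C.f11_2, C.f22_4, C.f22_6, g3, g5, g8, s3]
              · linarith only [C.f11_0, C.f11_1, C.f11_2, C.f13_0, C.f13_3, C.f13_7, C.f22_1, C.f22_4, C.f22_6, C.f33_1, C.o0, g1, g5, g6, s1, s3]
    · rcases (Ctx0_p22_33A C) with g2 | g2 | g2 | g2 | g2
      · linarith only [e2, g2]
      · linarith only [e3, g2]
      · linarith only [C.f13_0, g2, s1]
      · rcases C.f13_8 with g3 | g3
        · linarith only [C.b5, C.f13_7, C.o1, g2, g3, s2]
        · rcases (Ctx0_tpmz C) with g4 | g4 | g4 | g4 | g4 | g4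
          · linarith only [e0, g4]
          · linarith only [C.f13_0, C.f13_3, g2, g4, s2]
          · linarith only [C.f13_4, C.f22_4, C.f33_4, C.o1, g1, g4, s2]
          · linarith only [C.f13_0, C.f22_0, C.f33_0, C.o0, g4, s1]
          · rcases C.f22_2 with g5 | g5
            · linarith only [C.f13_0, C.f22_1, C.f33_0, C.o0, g4, g5, s1]
            · rcases C.f22_5 with g6 | g6
              · linarith only [C.a2, C.f13_0, C.f13_3, C.f22_4, g2, g5, g6, s2]
              · rcases (Ctx0_p11_33A C) with g7 | g7 | g7 | g7 | g7
                · rcases C.t12 with g8 | g8
                  · rcases (Ctx0_p13_22B C) with g9 | g9 | g9 | g9 | g9 | g9
                    · linarith only [e0, g9]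
                    · linarith only [C.o2, e3, g9]
                    · linarith only [e2, g9]
                    · linarith only [C.o0, e2, g0, g5, g7, g9]
                    · linarith only [C.o1, g2, g6, g9, s2]
                    · rcases (Ctx0_p13_33A C) with g10 | g10 | g10 | g10 | g10 | g10
                      · linarith only [e0, g10]
                      · linarith only [C.o2, e3, g10]
                      · linarith only [e3, g10]
                      · linarith only [C.f22_1, C.o0, g10, g4, s1]
                      · linarith only [C.f22_4, C.o1, g10, s2]
                      · rcases (Ctx0_p13_33B C) with g11 | g11 | g11 | g11 | g11 | g11
                        · linarith only [e0, g11]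
                        · linarith only [C.o2, e3, g11]
                        · linarith only [e3, g11]
                        · linarith only [C.f22_1, C.o0, g11, g4, s1]
                        · linarith only [C.f22_4, C.o1, g11, s2]
                        · rcases (Ctx0_tzmp C) with g12 | g12 | g12 | g12
                          · linarith only [g12, g8.2]
                          · linarith only [C.f13_0, C.f13_4, C.f22_1, C.f22_4, C.f33_1, C.f33_4, C.o0, g1, g12, g4, s1, s2]
                          · linarith only [e2, g12, g7]
                          · rcases C.f33_5 with g13 | g13
                            · rcases C.f13_5 with g14 | g14
                              · rcases C.f33_2 with g15 | g15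
                                · rcases C.f33_8 with g16 | g16
                                  · linarith only [C.f13_0, C.f22_1, C.f22_6, C.f33_7, C.o0, g10, g13, g16, g2, g4, g8.2, s1, s3]
                                  · rcases (Ctx0_p11_33B C) with g17 | g17 | g17 | g17 | g17
                                    · rcases (Ctx0_p22_33B C) with g18 | g18 | g18 | g18 | g18
                                      · linarith only [e2, g18]
                                      · linarith only [C.b3, C.f13_0, C.f22_1, C.f33_4, C.o0, e0, g13, g18, s1]
                                      · linarith only [C.f13_0, C.o0, g18, s1]
                                      · linarith only [C.f13_0, C.f13_3, C.f22_1, C.o0, g13, g18, g2, g4, g6, s1, s2]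
                                      · rcases (Ctx0_tmzp C) with g19 | g19 | g19 | g19 | g19 | g19
                                        · linarith only [C.f13_0, C.f22_1, C.f33_0, C.o0, g19, g4, s1]
                                        · linarith only [C.f13_0, C.f22_1, g13, g19, g2, g6, g8.2, s1]
                                        · linarith only [C.f13_0, C.f22_1, C.f33_4, C.o0, g13, g19, g4, g8.2, s1]
                                        · rcases (Ctx0_tmpp C) with g20 | g20 | g20 | g20
                                          · linarith only [C.f13_0, C.f22_1, C.f33_0, C.o0, g20, g4, s1]
                                          · linarith only [C.f13_0, C.f13_3, C.f22_1, g13, g2, g20, g6, s1, s2]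
                                          · rcases (Ctx0_tzpm C) with g21 | g21 | g21 | g21 | g21
                                            · linarith only [C.f13_0, C.f22_1, g13, g2, g21, g6, g8.2, s1]
                                            · linarith only [C.f13_0, C.f13_3, C.f22_1, C.f22_6, C.o0, g10, g13, g2, g21, g4, s1, s2, s3]
                                            · linarith only [C.f13_0, C.f13_3, C.f22_1, g13, g2, g21, g4, g6, s1, s2]
                                            · linarith only [C.f13_0, C.f22_1, C.f33_4, C.o0, C.o2, g13, g2, g21, g4, g6, g8.2, s1]
                                            · rcases (Ctx0_tpzm C) with g22 | g22 | g22 | g22 | g22 | g22 | g22 | g22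
                                              · linarith only [e0, g22]
                                              · linarith only [g22, g8.2]
                                              · linarith only [C.b5, C.o2, g21.1, g22]
                                              · linarith only [C.f13_0, C.f22_0, C.f33_0, C.o0, g22, s1]
                                              · linarith only [e2, g22, g7]
                                              · linarith only [C.f13_4, C.f22_4, C.f33_4, C.o2, g21.1, g22, s2]
                                              · rcases C.f23_7 with g23 | g23 | g23
                                                · rcases C.f23_3 with g24 | g24 | g24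
                                                  · linarith only [C.f13_0, C.f22_0, C.f23_5, C.f33_0, g23, g24, g8.2, s1]
                                                  · linarith only [C.f13_0, C.f22_1, C.f23_5, g13, g2, g23, g24, g6, g8.2, s1]
                                                  · linarith only [C.f13_0, C.f22_1, C.f23_5, C.f33_4, C.o2, g13, g21.1, g23, g24, g8.2, s1]
                                                · rcases C.f23_10 with g24 | g24
                                                  · linarith only [C.f13_0, C.f13_3, C.f22_1, C.f22_6, C.f23_9, C.o0, g1, g10, g13, g2, g23, g24, g4, s1, s2, s3]
                                                  · rcases (Ctx0_p13_23A C) with g25 | g25 | g25 | g25 | g25 | g25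
                                                    · linarith only [e0, g25]
                                                    · linarith only [C.f13_4, C.f22_4, C.f33_4, C.o2, e2, g21.1, g25, s2]
                                                    · linarith only [e2, g21.1, g25]
                                                    · rcases C.f23_3 with g26 | g26 | g26
                                                      · linarith only [C.f22_1, C.f33_0, C.o0, g25, g26, g4, s1]
                                                      · linarith only [C.f13_0, C.f13_3, C.f22_1, g13, g2, g25, g26, g6, s1, s2]
                                                      · linarith only [C.f22_1, C.f33_4, C.o2, g13, g21.1, g25, g26, g8.2, s1]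
                                                    · linarith only [g2, g23, g25, s2]
                                                    · linarith only [C.o2, g24, g25, g3]
                                                · linarith only [C.f13_4, C.f22_4, C.f23_5, C.f33_4, C.o2, g21.1, g23, s2]
                                              · linarith only [g21.1, g22.2]
                                          · linarith only [C.f13_0, C.f13_3, C.f22_1, g13, g2, g20, g4, g6, s1, s2]
                                        · linarith only [C.f13_0, C.f13_3, C.f22_1, g13, g19, g2, g4, g6, s1, s2]
                                        · linarith only [C.f22_4, C.f22_6, g1, g10, g19, s3]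
                                    · linarith only [C.b3, C.f13_0, C.f22_1, C.f33_4, C.o0, e0, g13, g17, s1]
                                    · linarith only [C.f11_0, C.f13_0, C.f22_1, C.o0, g17, g4, s1]
                                    · linarith only [C.f11_0, C.f11_1, C.f13_0, C.f13_3, C.f22_1, C.o0, g13, g17, g2, g4, g6, s1, s2]
                                    · linarith only [C.f11_0, C.f11_1, C.f11_2, C.f13_0, C.f13_3, C.f13_7, C.f22_1, C.f22_6, g1, g13, g17, g2, g4, s1, s2, s3]
                                · linarith only [C.f13_0, C.f22_1, C.f33_4, g13, g15, g2, g6, g8.2, s1]
                              · linarith only [C.f13_0, C.f13_3, C.f22_1, C.f33_4, C.o0, C.o2, g13, g14, g4, s1]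
                            · rcases C.f33_8 with g14 | g14
                              · linarith only [C.f13_0, C.f22_1, C.f22_4, C.f22_6, C.f33_1, C.f33_7, C.o0, g10, g13, g14, g4, s1, s3]
                              · rcases (Ctx0_p11_33B C) with g15 | g15 | g15 | g15 | g15
                                · rcases (Ctx0_p22_33B C) with g16 | g16 | g16 | g16 | g16
                                  · linarith only [e2, g16]
                                  · linarith only [e3, g16]
                                  · linarith only [C.f13_0, C.o0, g16, s1]
                                  · linarith only [C.f13_0, C.f22_1, C.f33_1, C.o0, g13, g16, g4, g6, s1]
                                  · rcases (Ctx0_tmzp C) with g17 | g17 | g17 | g17 | g17 | g17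
                                    · linarith only [C.f13_0, C.f22_1, C.f33_0, C.o0, g17, g4, s1]
                                    · linarith only [C.f13_0, C.f22_1, C.f33_1, g13, g17, g2, g6, s1]
                                    · linarith only [C.f13_0, C.f13_4, C.f22_1, C.f22_4, C.f33_1, C.f33_4, C.o0, g1, g17, g4, s1, s2]
                                    · rcases (Ctx0_tzpm C) with g18 | g18 | g18 | g18 | g18
                                      · linarith only [C.f13_0, C.f22_1, C.f33_1, g13, g18, g2, g6, s1]
                                      · linarith only [C.f13_0, C.f22_1, C.f22_4, C.f22_6, C.f33_1, C.o0, g10, g13, g18, g2, g4, s1, s3]
                                      · linarith only [C.f13_0, C.f13_3, C.f22_1, C.f33_1, g13, g18, g2, g4, g6, s1, s2]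
                                      · linarith only [C.f13_0, C.f22_1, C.f33_1, C.o0, C.o2, g18, g4, s1]
                                      · rcases (Ctx0_tpzm C) with g19 | g19 | g19 | g19 | g19 | g19 | g19 | g19
                                        · linarith only [e0, g19]
                                        · linarith only [g19, g8.2]
                                        · linarith only [C.b5, C.o2, g18.1, g19]
                                        · linarith only [C.f13_0, C.f22_0, C.f33_0, C.o0, g19, s1]
                                        · linarith only [e2, g19, g7]
                                        · linarith only [C.f13_4, C.f22_4, C.f33_4, C.o2, g18.1, g19, s2]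
                                        · rcases C.f23_7 with g20 | g20 | g20
                                          · rcases C.f23_3 with g21 | g21 | g21
                                            · linarith only [C.f13_0, C.f22_0, C.f23_5, C.f33_0, g20, g21, g8.2, s1]
                                            · linarith only [C.f13_0, C.f13_3, C.f22_1, C.f23_5, C.f33_1, g13, g2, g20, g21, g6, s1, s2]
                                            · linarith only [C.f13_0, C.f13_4, C.f22_1, C.f22_4, C.f23_5, C.f33_1, C.f33_4, C.o2, g18.1, g20, g21, g8.2, s1, s2]
                                          · rcases C.f23_10 with g21 | g21
                                            · linarith only [C.f22_4, C.f22_6, C.f23_9, g1, g10, g18.1, g20, g21, s3]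
                                            · rcases (Ctx0_p13_23A C) with g22 | g22 | g22 | g22 | g22 | g22
                                              · linarith only [e0, g22]
                                              · linarith only [C.f13_4, C.f22_4, C.f33_4, C.o2, e2, g18.1, g22, s2]
                                              · linarith only [e2, g18.1, g22]
                                              · rcases C.f23_3 with g23 | g23 | g23
                                                · linarith only [C.f22_1, C.f33_0, C.o0, g22, g23, g4, s1]
                                                · rcases (Ctx0_p11_23B C) with g24 | g24 | g24 | g24 | g24 | g24
                                                  · rcases (Ctx0_p13_23B C) with g25 | g25 | g25 | g25 | g25 | g25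
                                                    · linarith only [e0, g25]
                                                    · linarith only [C.f13_4, C.f22_4, C.f33_4, C.o2, e2, g18.1, g25, s2]
                                                    · linarith only [e2, g18.1, g25]
                                                    · linarith only [C.o0, e2, g0, g18.1, g23, g25, g7]
                                                    · linarith only [g18.1, g2, g20, g25, s2]
                                                    · rcases (Ctx0_p23_33A C) with g26 | g26 | g26 | g26 | g26 | g26
                                                      · linarith only [e2, g18.1, g26]
                                                      · linarith only [C.f13_4, C.f22_4, C.f33_4, C.o2, e2, g18.1, g26, s2]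
                                                      · linarith only [C.f13_0, C.f13_4, C.f22_1, C.f22_4, C.f33_1, C.f33_4, e0, g1, g18.1, g26, s1, s2]
                                                      · linarith only [C.f13_0, C.f22_1, g18.1, g23, g26, s1]
                                                      · linarith only [C.f22_1, C.f33_1, C.o0, g13, g20, g22, g23, g26, g4, s1]
                                                      · rcases (Ctx0_p23_33B C) with g27 | g27 | g27 | g27 | g27 | g27
                                                        · linarith only [e2, g18.1, g27]
                                                        · linarith only [C.f13_4, C.f22_4, C.f33_4, C.o2, e2, g18.1, g27, s2]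
                                                        · linarith only [C.f13_0, C.f13_4, C.f22_1, C.f22_4, C.f33_1, C.f33_4, e0, g1, g18.1, g27, s1, s2]
                                                        · linarith only [C.f13_0, C.f22_1, C.o0, g18.1, g23, g27, s1]
                                                        · linarith only [C.f13_4, C.f22_4, g1, g13, g18.1, g20, g27, s2]
                                                        · rcases (nF2 hn2) with g28 | g28 | g28 | g28 | g28 | g28 | g28 | g28 | g28 | g28 | g28 | g28 | g28 | g28 | g28
                                                          · linarith only [e0, g28]
                                                          · linarith only [C.f13_0, C.f22_1, C.f33_0, g28, g4, g7, s1]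
                                                          · linarith only [C.f13_0, C.f13_3, C.f22_1, C.f33_1, g13, g2, g28, g6, s1, s2]
                                                          · linarith only [C.f13_0, C.f22_1, C.f22_4, C.f22_6, C.f33_1, g10, g28, g4, g7, s1, s3]
                                                          · linarith only [e2, g0, g1, g12, g13, g2, g22, g23, g28, g6]
                                                          · linarith only [C.f13_0, C.f22_1, C.f33_1, g13, g2, g28, g6, s1]
                                                          · linarith only [g0, g22, g23, g28]
                                                          · linarith only [C.f22_1, C.f33_1, g22, g23, g28, g4, g7, s1]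
                                                          · linarith only [e2, g0, g13, g2, g22, g23, g28, g6]
                                                          · linarith only [C.b0, g28]
                                                          · linarith only [g28, g7]
                                                          · linarith only [e2, g28, g7]
                                                          · linarith only [g28, g4]
                                                          · linarith only [C.f13_0, C.f22_1, C.f33_1, C.o2, g28, g4, g7, s1]
                                                          · linarith only [e2, g0, g1, g13, g2, g22, g23, g28, g6]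
                                                  · linarith only [e2, g18.1, g24]
                                                  · linarith only [C.f13_4, C.f22_4, C.f33_4, C.o2, e2, g18.1, g24, s2]
                                                  · linarith only [C.f11_0, e2, g18.1, g23, g24, g7]
                                                  · linarith only [C.f11_0, C.f11_1, C.f13_0, C.f13_3, C.f22_1, C.f33_1, g13, g18.1, g2, g20, g24, g4, g6, s1, s2]
                                                  · linarith only [C.f11_0, C.f11_1, C.f11_2, C.f13_0, C.f13_3, C.f22_1, C.f22_4, C.f22_6, C.f33_1, g1, g10, g13, g2, g21, g24, g4, s1, s2, s3]
                                                · linarith only [C.f13_4, C.f22_4, C.f23_1, C.f33_4, C.o2, g18.1, g23, s2]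
                                              · linarith only [g2, g20, g22, s2]
                                              · linarith only [C.o2, g21, g22, g3]
                                          · linarith only [C.f13_4, C.f22_4, C.f23_5, C.f33_4, C.o2, g18.1, g20, s2]
                                        · linarith only [g18.1, g19.2]
                                    · linarith only [C.f13_0, C.f13_3, C.f22_1, C.f33_1, g13, g17, g2, g4, g6, s1, s2]
                                    · linarith only [C.f22_4, C.f22_6, g1, g10, g17, s3]
                                · linarith only [e3, g15]
                                · linarith only [C.f11_0, C.f13_0, C.f22_1, C.o0, g15, g4, s1]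
                                · linarith only [C.f11_0, C.f11_1, C.f13_0, C.f13_3, C.f22_1, C.f33_1, C.o0, g13, g15, g2, g4, g6, s1, s2]
                                · linarith only [C.f11_0, C.f11_1, C.f11_2, C.f13_0, C.f13_3, C.f13_7, C.f22_1, C.f22_4, C.f22_6, C.f33_1, g1, g13, g15, g2, g4, s1, s2, s3]
                  · linarith only [g7, g8.1]
                · linarith only [e3, g7]
                · linarith only [C.f11_0, C.f13_0, C.f22_1, g4, g7, s1]
                · linarith only [C.a2, C.f11_0, C.f11_1, C.f13_0, C.f13_3, C.f22_4, g4, g7, s2]
                · linarith only [C.a2, C.f11_0, C.f11_1, C.f11_2, C.f13_0, C.f13_3, C.f13_7, C.f22_4, C.f22_6, g1, g2, g4, g7, s2, s3]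
          · linarith only [C.f13_7, C.f22_4, C.f22_6, C.f33_7, g1, g4, s3]
      · linarith only [C.f13_7, g1, g2, s3]
  · linarith only [C.f13_0, C.f13_4, C.f22_1, C.f22_4, C.f33_1, C.f33_4, C.o1, C.o2, g0, s1, s2]

end Pool.Agent.Helper94.TQ
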