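import Pool.Agent.Helper94.TQ.Facts

set_option autoImplicit false
set_option linter.all false
set_option maxHeartbeats 4000000

namespace Pool.Agent.Helper94.TQ

open Pool.Agent.Helper89.TQ

theorem c0_13_23_33_k2 {n1 n2 n3 A1 A2 A3 B1 B2 B3 m11_1 m11_2 m11_3 m13_1 m13_2 m13_3 m22_1 m22_2 m22_3 m23_1 m23_2 m23_3 m33_1 m33_2 m33_3 : ℤ}
    (C : Ctx0 n1 n2 n3 A1 A2 A3 B1 B2 B3 m11_1 m11_2 m11_3 m13_1 m13_2 m13_3 m22_1 m22_2 m22_3 m23_1 m23_2 m23_3 m33_1 m33_2 m33_3)
    (e0 : 0 < A1)
    (e1 : 0 < B3)
    (e2 : 0 < A2)
    (e3 : 0 < A3)
    (s1 : 2 * A1 + 1 * B1 ≤ m13_1 + m23_1 + m33_1)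
    (s2 : 2 * A2 + 1 * B2 ≤ m13_2 + m23_2 + m33_2)
    (s3 : 2 * A3 + 1 * B3 ≤ m13_3 + m23_3 + m33_3) : False := by
  rcases C.f13_2 with g0 | g0
  · rcases (Ctx0_tzpm C) with g1 | g1 | g1 | g1 | g1
    · rcases C.t23 with g2 | g2
      · linarith only [g1, g2.1]
      · rcases C.f22_2 with g3 | g3
        · linarith only [C.a1, C.f22_1, C.o1, g1, g3]
        · rcases C.f22_5 with g4 | g4
          · linarith only [C.b3, C.f22_4, g2.1, g3, g4]
          · rcases C.f23_3 with g5 | g5 | g5
            · linarith only [C.a1, C.f23_1, g1, g5]
            · rcases C.f23_7 with g6 | g6 | g6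
              · linarith only [C.b3, C.f23_5, g2.1, g5, g6]
              · rcases C.f23_10 with g7 | g7
                · linarith only [C.f23_9, C.o1, g2.2, g6, g7]
                · rcases (Ctx0_p13_33B C) with g8 | g8 | g8 | g8 | g8 | g8
                  · linarith only [e0, g8]
                  · linarith only [C.o2, e3, g8]
                  · linarith only [e3, g8]
                  · linarith only [C.f23_1, C.o0, g1, g8, s1]
                  · linarith only [C.f23_5, C.o1, g8, s2]
                  · rcases (Ctx0_tpzm C) with g9 | g9 | g9 | g9 | g9 | g9 | g9 | g9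
                    · linarith only [e0, g9]
                    · linarith only [C.b3, g1, g2.1, g9]
                    · linarith only [C.f13_7, C.f23_9, C.f33_7, C.o1, g2.2, g9, s3]
                    · linarith only [C.f13_0, C.f23_1, C.f33_0, g1, g9, s1]
                    · linarith only [g2.1, g9]
                    · linarith only [C.f13_4, C.f13_7, C.f23_5, C.f23_9, C.f33_4, C.f33_7, C.o1, g9, s2, s3]
                    · linarith only [C.f13_7, C.f23_9, C.f33_7, g9, s3]
                    · rcases (Ctx0_p13_33A C) with g10 | g10 | g10 | g10 | g10 | g10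
                      · linarith only [e0, g10]
                      · linarith only [C.o2, e3, g10]
                      · linarith only [e3, g10]
                      · linarith only [C.f23_1, g1, g10, g9.1, s1]
                      · linarith only [C.f23_5, g10, g9.2, s2]
                      · linarith only [C.f23_9, g10, s3]
              · linarith only [C.a4, C.f13_7, C.f23_5, C.f23_9, C.f33_7, g6, s3]
            · linarith only [C.a4, C.f13_7, C.f23_1, C.f23_9, C.f33_7, g5, s3]
    · linarith only [C.f13_7, C.f23_5, C.f23_8, C.f33_7, g1, s3]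
    · rcases C.t12 with g2 | g2
      · rcases (Ctx0_p13_33B C) with g3 | g3 | g3 | g3 | g3 | g3
        · linarith only [e0, g3]
        · linarith only [C.o2, e3, g3]
        · linarith only [e3, g3]
        · linarith only [C.f13_3, C.f23_5, C.f33_3, C.o1, g1, g3, s2]
        · linarith only [C.f23_5, C.o1, g3, s2]
        · rcases (Ctx0_tpzm C) with g4 | g4 | g4 | g4 | g4 | g4 | g4 | g4
          · linarith only [e0, g4]
          · linarith only [g2.2, g4]
          · linarith only [C.f13_7, C.f23_5, C.f23_8, C.f33_7, g4, s3]
          · linarith only [C.a1, C.o0, g4]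
          · linarith only [C.a2, g1, g2.2, g4]
          · linarith only [C.f13_4, C.f13_7, C.f23_5, C.f23_9, C.f33_4, C.f33_7, C.o1, g4, s2, s3]
          · linarith only [C.f13_7, C.f23_9, C.f33_7, g4, s3]
          · rcases C.f13_5 with g5 | g5
            · rcases C.f13_8 with g6 | g6
              · linarith only [C.b3, C.b5, C.f13_7, C.o0, g0, g5, g6]
              · rcases C.f33_8 with g7 | g7
                · linarith only [C.f13_0, C.f13_3, C.f13_7, C.f23_5, C.f23_8, C.f33_7, g1, g4.1, g7, s2, s3]
                · rcases (Ctx0_p13_33A C) with g8 | g8 | g8 | g8 | g8 | g8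
                  · linarith only [e0, g8]
                  · linarith only [C.o2, e3, g8]
                  · linarith only [e3, g8]
                  · rcases C.f23_7 with g9 | g9 | g9
                    · linarith only [C.b3, C.f23_5, g4.2, g8, g9, s1]
                    · rcases C.f33_2 with g10 | g10
                      · rcases (Ctx0_p23_33A C) with g11 | g11 | g11 | g11 | g11 | g11
                        · linarith only [e2, g11]
                        · linarith only [C.o2, e3, g11]
                        · linarith only [e3, g11]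
                        · linarith only [C.f13_0, g11, g4.1, s1]
                        · linarith only [C.f13_0, C.f13_3, g1, g11, g4.1, s2]
                        · linarith only [C.f13_7, g11, s3]
                      · linarith only [C.f13_3, C.f23_1, C.f23_5, C.f33_4, g1, g10, g4.1, g8, s1, s2]
                    · linarith only [C.f13_4, C.f13_7, C.f23_5, C.f23_9, C.f33_4, C.f33_7, g4.2, g9, s2, s3]
                  · linarith only [C.f23_5, g4.2, g8, s2]
                  · linarith only [C.f23_9, g8, s3]
            · linarith only [C.f13_0, C.f13_3, C.f13_7, C.f23_5, C.f23_9, C.f33_4, C.f33_7, C.o1, g1, g4.1, g5, s2, s3]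
      · linarith only [g1, g2.2]
    · linarith only [C.f13_4, C.f13_7, C.f23_5, C.f23_9, C.f33_4, C.f33_7, C.o1, g1, s2, s3]
    · linarith only [C.f13_7, C.f23_9, C.f33_7, g1.2, s3]
  · linarith only [C.a2, C.a4, C.f13_0, C.f13_7, C.f23_9, C.f33_7, g0, s3]

end Pool.Agent.Helper94.TQ
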