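import Pool.Agent.Helper94.TQ.Facts

set_option autoImplicit false
set_option linter.all false
set_option maxHeartbeats 4000000

namespace Pool.Agent.Helper94.TQ

open Pool.Agent.Helper89.TQ

theorem c0_22_23_33_k3 {n1 n2 n3 A1 A2 A3 B1 B2 B3 m11_1 m11_2 m11_3 m13_1 m13_2 m13_3 m22_1 m22_2 m22_3 m23_1 m23_2 m23_3 m33_1 m33_2 m33_3 : ℤ}
    (C : Ctx0 n1 n2 n3 A1 A2 A3 B1 B2 B3 m11_1 m11_2 m11_3 m13_1 m13_2 m13_3 m22_1 m22_2 m22_3 m23_1 m23_2 m23_3 m33_1 m33_2 m33_3)
    (e0 : 0 < B2)
    (e1 : 0 < A2)
    (e2 : 0 < B3)
    (e3 : 0 < A3)
    (s1 : 3 * A1 + 0 * B1 ≤ m22_1 + m23_1 + m33_1)
    (s2 : 3 * A2 + 0 * B2 ≤ m22_2 + m23_2 + m33_2)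
    (s3 : 3 * A3 + 0 * B3 ≤ m22_3 + m23_3 + m33_3) : False := by
  rcases C.f13_2 with g0 | g0
  · rcases C.f33_8 with g1 | g1
    · linarith only [C.f22_4, C.f22_6, C.f23_5, C.f23_8, C.f33_7, C.o1, g1, s2, s3]
    · rcases (Ctx0_p22_33A C) with g2 | g2 | g2 | g2 | g2
      · linarith only [e0, g2]
      · linarith only [C.f22_4, C.f23_5, C.f33_4, C.o1, e1, g2, s2]
      · rcases C.f23_7 with g3 | g3 | g3
        · linarith only [C.f22_3, C.f23_5, C.f33_3, g2, g3, s1, s2]
        · rcases C.f33_2 with g4 | g4
          · rcases C.f22_2 with g5 | g5
            · linarith only [C.f23_0, g2, g4, g5, s1]
            · rcases C.f22_5 with g6 | g6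
              · linarith only [C.f22_4, C.f23_1, C.f23_5, C.f33_3, g2, g5, g6, s1, s2]
              · rcases C.f23_10 with g7 | g7
                · linarith only [C.b5, C.f23_0, C.f23_1, C.f23_9, g2, g3, g4, g5, g7, s1]
                · rcases (Ctx0_p22_23B C) with g8 | g8 | g8 | g8 | g8 | g8
                  · linarith only [e0, g8]
                  · linarith only [C.b0, C.f23_1, C.o0, g2, g8, s1]
                  · linarith only [C.o2, e3, g8]
                  · linarith only [C.b2, C.o0, g2, g5, g8, s1]
                  · linarith only [C.f23_0, C.f23_1, g2, g3, g4, g5, g6, g8, s1]
                  · rcases (Ctx0_p22_33B C) with g9 | g9 | g9 | g9 | g9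
                    · linarith only [e0, g9]
                    · linarith only [C.f22_4, C.f23_5, C.f33_4, C.o1, e1, g9, s2]
                    · linarith only [C.b2, C.f23_0, C.o0, g4, g5, g9, s1]
                    · linarith only [C.f23_5, C.o1, g9, s2]
                    · rcases (Ctx0_p23_33A C) with g10 | g10 | g10 | g10 | g10 | g10
                      · linarith only [C.b0, C.f23_1, C.o0, g10, g2, s1]
                      · linarith only [C.o2, e3, g10]
                      · linarith only [C.f22_4, C.f23_5, C.f33_4, C.o1, e1, g10, s2]
                      · linarith only [C.f22_0, g10, g2, g4, s1]
                      · linarith only [C.f22_4, C.o1, g10, s2]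
                      · rcases (Ctx0_p23_33B C) with g11 | g11 | g11 | g11 | g11 | g11
                        · linarith only [C.b0, C.f23_1, C.o0, g11, g2, s1]
                        · linarith only [C.o2, e3, g11]
                        · linarith only [C.f22_4, C.f23_5, C.f33_4, C.o1, e1, g11, s2]
                        · linarith only [C.f22_0, C.o0, g11, g2, g4, s1]
                        · linarith only [C.f22_4, C.f23_0, C.f23_1, g11, g2, g4, g5, s1, s2]
                        · rcases (Ctx0_tpmz C) with g12 | g12 | g12 | g12 | g12 | g12
                          · linarith only [C.b0, C.o0, g12]
                          · linarith only [C.f22_4, C.f23_1, C.f23_5, C.f33_3, g12, g2, g5, s1, s2]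
                          · linarith only [C.f22_4, C.f23_5, C.f33_4, C.o1, g12, s2]
                          · linarith only [C.f23_0, C.o0, g12, g2, s1]
                          · rcases (Ctx0_p11_23B C) with g13 | g13 | g13 | g13 | g13 | g13
                            · rcases C.t12 with g14 | g14
                              · rcases (Ctx0_p11_33B C) with g15 | g15 | g15 | g15 | g15
                                · rcases (Ctx0_tmzp C) with g16 | g16 | g16 | g16 | g16 | g16
                                  · linarith only [C.f23_0, g16, g2, s1]
                                  · linarith only [C.f23_1, g16, g2, s1]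
                                  · linarith only [C.f22_4, C.f23_1, C.f23_5, C.f33_4, C.o0, g12, g16, g2, s1, s2]
                                  · rcases (Ctx0_tmpp C) with g17 | g17 | g17 | g17
                                    · linarith only [C.f23_0, g17, g2, s1]
                                    · linarith only [C.f23_1, g17, g2, s1]
                                    · rcases (Ctx0_tzmp C) with g18 | g18 | g18 | g18
                                      · linarith only [g14.2, g18]
                                      · linarith only [C.f22_4, C.f23_1, C.f23_5, C.f33_4, C.o0, g12, g18, g2, s1, s2]
                                      · linarith only [e0, g13, g18]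
                                      · rcases (Ctx0_tzpm C) with g19 | g19 | g19 | g19 | g19
                                        · linarith only [C.f23_1, g19, g2, s1]
                                        · linarith only [C.f22_4, C.f22_6, C.f23_1, C.o0, g10, g12, g19, g2, s1, s3]
                                        · linarith only [C.f22_4, C.f23_1, C.f23_5, C.f33_3, g12, g19, g2, g5, s1, s2]
                                        · linarith only [C.f22_4, C.f23_1, C.f23_5, C.f33_4, C.o0, C.o2, g12, g19, g2, s1, s2]
                                        · rcases (Ctx0_tpzm C) with g20 | g20 | g20 | g20 | g20 | g20 | g20 | g20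
                                          · linarith only [g14.1, g20]
                                          · linarith only [g14.2, g20]
                                          · linarith only [C.b5, C.o2, g19.1, g20]
                                          · linarith only [C.f23_0, C.o0, g2, g20, s1]
                                          · linarith only [e0, g13, g20]
                                          · linarith only [C.f22_4, C.f23_5, C.f33_4, C.o2, g19.1, g20, s2]
                                          · rcases C.f13_8 with g21 | g21
                                            · rcases C.f13_5 with g22 | g22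
                                              · linarith only [C.b5, C.f13_7, C.f22_4, C.f23_1, C.f23_5, C.f33_3, g0, g19.1, g2, g21, g22, g5, s1, s2]
                                              · linarith only [C.b5, C.f13_7, C.f22_4, C.f23_5, C.f33_4, C.o2, g19.1, g21, g22, s2]
                                            · rcases (Ctx0_p11_13B C) with g22 | g22 | g22 | g22 | g22 | g22
                                              · rcases (Ctx0_p13_23A C) with g23 | g23 | g23 | g23 | g23 | g23
                                                · linarith only [g14.1, g23]
                                                · linarith only [C.f22_4, C.f23_5, C.f33_4, C.o2, e0, g19.1, g23, s2]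
                                                · linarith only [e0, g19.1, g23]
                                                · linarith only [g0, g2, g23, s1]
                                                · rcases C.f13_5 with g24 | g24
                                                  · linarith only [C.f22_4, C.f23_1, C.f33_3, g0, g2, g23, g24, g5, s1, s2]
                                                  · linarith only [C.f22_4, C.f33_4, C.o2, g19.1, g23, g24, s2]
                                                · linarith only [C.o2, g21, g23, g7]
                                              · linarith only [g14.1, g22]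
                                              · linarith only [C.f22_4, C.f23_5, C.f33_4, C.o2, e0, g19.1, g22, s2]
                                              · linarith only [C.f11_0, C.f23_0, e0, g0, g13, g2, g22, g4, g5, s1]
                                              · linarith only [C.f11_0, C.f11_1, C.f13_6, C.f22_4, C.f23_1, C.f23_5, C.f33_3, g12, g18, g2, g21, g22, g5, s1, s2]
                                              · linarith only [C.f11_0, C.f11_1, C.f11_2, C.f22_4, C.f22_6, C.f23_1, C.f23_5, C.f33_3, g10, g12, g19.2, g2, g21, g22, g5, s1, s2, s3]
                                          · linarith only [g19.1, g20.2]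
                                    · linarith only [C.f22_4, C.f23_1, C.f23_5, C.f33_3, g12, g17, g2, g5, s1, s2]
                                  · linarith only [C.f22_4, C.f23_1, C.f23_5, C.f33_3, g12, g16, g2, g5, s1, s2]
                                  · linarith only [C.f22_4, C.f22_6, g1, g10, g16, g7, s3]
                                · linarith only [C.f22_4, C.f23_1, C.f23_5, C.f33_4, C.o1, g14.1, g15, g2, s1, s2]
                                · linarith only [C.f11_0, C.f23_0, C.o0, g15, g2, g4, s1]
                                · linarith only [C.f11_0, C.f11_1, C.f22_4, C.f23_1, C.f23_5, C.o0, g12, g14.2, g15, g2, s1, s2]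
                                · linarith only [C.f11_0, C.f11_1, C.f11_2, C.f22_4, C.f22_6, C.f23_1, C.f23_5, C.f33_3, g1, g10, g12, g15, g2, g5, g7, s1, s2, s3]
                              · linarith only [g13, g14.1]
                            · linarith only [C.b0, C.f23_1, C.o0, g13, g2, s1]
                            · linarith only [C.o2, e3, g13]
                            · linarith only [C.f11_0, C.o0, g13, g2, s1]
                            · linarith only [C.f11_0, C.f11_1, C.f22_4, C.f23_1, C.f33_3, C.o0, g12, g13, g2, g5, s1, s2]
                            · linarith only [C.b5, C.f11_0, C.f11_1, C.f11_2, C.f22_4, C.f23_1, C.f23_5, C.f33_3, g12, g13, g2, g5, g7, s1, s2]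
                          · linarith only [C.f22_4, C.f22_6, g1, g10, g12, g7, s3]
          · rcases C.f22_2 with g5 | g5
            · linarith only [C.f22_4, C.f23_0, C.f23_1, C.f23_5, C.f33_4, C.o1, g2, g4, g5, s1, s2]
            · linarith only [C.f22_4, C.f23_1, C.f23_5, C.f33_4, g2, g4, g5, s1, s2]
        · linarith only [C.f22_4, C.f23_5, C.f33_4, C.o1, C.o2, g3, s2]
      · linarith only [C.f23_5, g2, s2]
      · rcases C.f22_5 with g3 | g3
        · rcases C.f22_2 with g4 | g4
          · linarith only [C.b3, C.f22_4, C.f23_0, C.f33_0, C.o0, g3, g4, s1]
          · linarith only [C.a2, C.a3, C.b5, C.f22_6, C.f23_9, g1, g2, g3, g4, s3]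
        · linarith only [C.b5, C.f22_6, C.f23_9, g1, g2, g3, s3]
  · linarith only [C.f13_0, C.f22_1, C.f22_4, C.f23_1, C.f23_5, C.f33_1, C.f33_4, C.o1, C.o2, g0, s1, s2]

end Pool.Agent.Helper94.TQ
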