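import Pool.Agent.Helper94.TQ.Facts

set_option autoImplicit false
set_option linter.all false
set_option maxHeartbeats 4000000

namespace Pool.Agent.Helper94.TQ

open Pool.Agent.Helper89.TQ

theorem c2_13_22_33_k3 {n1 n2 n3 A1 A2 A3 B1 B2 B3 m11_1 m11_2 m11_3 m12_1 m12_2 m12_3 m13_1 m13_2 m13_3 m22_1 m22_2 m22_3 m33_1 m33_2 m33_3 : ℤ}
    (C : Ctx2 n1 n2 n3 A1 A2 A3 B1 B2 B3 m11_1 m11_2 m11_3 m12_1 m12_2 m12_3 m13_1 m13_2 m13_3 m22_1 m22_2 m22_3 m33_1 m33_2 m33_3)
    (e0 : 0 < A1)
    (e1 : 0 < B3)
    (e2 : 0 < A2)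
    (e3 : 0 < A3)
    (s1 : 3 * A1 + 0 * B1 ≤ m13_1 + m22_1 + m33_1)
    (s2 : 3 * A2 + 0 * B2 ≤ m13_2 + m22_2 + m33_2)
    (s3 : 3 * A3 + 0 * B3 ≤ m13_3 + m22_3 + m33_3) : False := by
  rcases C.f12_2 with g0 | g0
  · rcases C.f12_5 with g1 | g1
    · linarith only [C.b3, C.f12_4, C.o0, g0, g1]
    · rcases C.f13_2 with g2 | g2
      · rcases (Ctx2_p13_22A C) with g3 | g3 | g3 | g3 | g3 | g3
        · linarith only [e0, g3]
        · linarith only [C.f13_0, C.f13_4, C.f22_1, C.f22_4, C.f33_1, C.f33_4, C.o2, e0, g3, s1, s2]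
        · linarith only [e2, g3]
        · rcases C.f22_2 with g4 | g4
          · linarith only [C.f33_0, g2, g3, g4, s1]
          · rcases C.f22_5 with g5 | g5
            · linarith only [C.a2, C.b3, C.f22_4, C.o0, C.o1, g4, g5]
            · rcases (Ctx2_p13_33A C) with g6 | g6 | g6 | g6 | g6 | g6
              · linarith only [e0, g6]
              · linarith only [C.f13_0, C.f13_4, C.f22_1, C.f22_4, C.f33_1, C.f33_4, C.o2, e0, g6, s1, s2]
              · linarith only [C.f33_1, e0, g3, g6, s1]
              · linarith only [g2, g3, g6, s1]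
              · linarith only [C.f22_4, g6, s2]
              · rcases (Ctx2_p12_33A C) with g7 | g7 | g7 | g7 | g7 | g7
                · linarith only [e0, g7]
                · linarith only [C.o1, e2, g7]
                · linarith only [C.f33_1, e0, g3, g7, s1]
                · linarith only [g0, g3, g7, s1]
                · rcases C.f13_8 with g8 | g8
                  · linarith only [C.b5, C.f13_7, C.f22_4, g1, g7, g8, s2]
                  · rcases C.f33_5 with g9 | g9
                    · linarith only [C.b3, C.o0, C.o1, g1, g3, g7, g9, s1]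
                    · linarith only [C.f33_1, C.o1, g1, g2, g3, g4, g7, g9, s1]
                · rcases C.f33_8 with g8 | g8
                  · rcases C.f13_8 with g9 | g9
                    · linarith only [C.f22_4, C.f22_6, g6, g8, g9, s2, s3]
                    · rcases C.f33_5 with g10 | g10
                      · linarith only [C.b3, C.f22_4, C.f22_6, C.f33_7, C.o0, C.o1, g10, g3, g6, g8, s1, s3]
                      · linarith only [C.f13_4, C.f22_4, C.f22_6, C.f33_7, g10, g6, g8, g9, s2, s3]
                  · linarith only [C.f12_6, C.f22_4, C.f22_6, C.o1, g1, g6, g7, g8, s3]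
        · rcases C.f33_8 with g4 | g4
          · linarith only [C.f13_6, C.f22_6, C.f33_7, g3, g4, s2, s3]
          · rcases (Ctx2_p12_33A C) with g5 | g5 | g5 | g5 | g5 | g5
            · linarith only [e0, g5]
            · linarith only [C.o1, e2, g5]
            · linarith only [C.f13_0, C.f22_1, C.f33_1, C.f33_4, e0, g3, g5, s1, s2]
            · rcases C.f22_5 with g6 | g6
              · linarith only [C.b3, C.f13_0, C.f22_4, C.o0, C.o1, g0, g5, g6, s1]
              · rcases C.f13_5 with g7 | g7
                · linarith only [C.b3, C.o0, C.o1, g2, g3, g6, g7]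
                · linarith only [C.f33_4, C.o2, g3, g6, g7, s2]
            · linarith only [C.o1, g1, g3, g5, s2]
            · linarith only [C.b5, C.f12_6, C.f13_7, C.f22_4, C.f22_6, C.o1, g1, g4, g5, s3]
        · linarith only [C.f33_7, g3, s3]
      · linarith only [C.f13_0, C.f13_4, C.f22_1, C.f22_4, C.f33_1, C.f33_4, C.o2, g2, s1, s2]
  · linarith only [C.a2, C.f12_0, C.o1, g0]

end Pool.Agent.Helper94.TQ
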