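import Pool.Agent.Helper94.TQ.Facts

set_option autoImplicit false
set_option linter.all false
set_option maxHeartbeats 4000000

namespace Pool.Agent.Helper94.TQ

open Pool.Agent.Helper89.TQ

theorem c3_22_33_33_k3 {n1 n2 n3 A1 A2 A3 B1 B2 B3 m11_1 m11_2 m11_3 m22_1 m22_2 m22_3 m23_1 m23_2 m23_3 m33_1 m33_2 m33_3 : ℤ}
    (C : Ctx3 n1 n2 n3 A1 A2 A3 B1 B2 B3 m11_1 m11_2 m11_3 m22_1 m22_2 m22_3 m23_1 m23_2 m23_3 m33_1 m33_2 m33_3)
    (e0 : 0 < B2)
    (e1 : 0 < A3)
    (s1 : 3 * A1 + 0 * B1 ≤ m22_1 + m33_1 + m33_1)
    (s2 : 3 * A2 + 0 * B2 ≤ m22_2 + m33_2 + m33_2)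
    (s3 : 3 * A3 + 0 * B3 ≤ m22_3 + m33_3 + m33_3) : False := by
  rcases C.f33_8 with g0 | g0
  · linarith only [C.f22_4, C.f22_6, C.f33_7, C.o1, g0, s2, s3]
  · rcases (Ctx3_p11_33A C) with g1 | g1 | g1 | g1 | g1
    · rcases C.t12 with g2 | g2
      · linarith only [C.o0, g1, g2.1]
      · linarith only [g1, g2.1]
    · linarith only [C.f22_4, C.f33_4, C.o1, e0, g1, s2]
    · rcases C.f22_5 with g2 | g2
      · linarith only [C.f11_0, C.f22_4, C.f33_3, C.o0, C.o1, g1, g2, s1, s2]
      · rcases C.f33_2 with g3 | g3
        · rcases C.f23_3 with g4 | g4 | g4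
          · rcases C.f23_7 with g5 | g5 | g5
            · linarith only [C.f22_4, C.f23_5, C.f33_0, C.f33_3, C.o1, g4, g5, s2]
            · rcases C.f23_10 with g6 | g6
              · linarith only [C.b5, C.f23_9, C.o1, g5, g6]
              · rcases (Ctx3_p22_23A C) with g7 | g7 | g7 | g7 | g7 | g7
                · linarith only [e0, g7]
                · linarith only [C.o1, e0, g7]
                · linarith only [C.f22_4, C.f33_4, C.o1, C.o2, e0, g7, s2]
                · linarith only [C.f11_0, C.f33_0, C.o0, g1, g4, g7, s1]
                · rcases (Ctx3_p22_33A C) with g8 | g8 | g8 | g8 | g8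
                  · linarith only [e0, g8]
                  · linarith only [C.f22_4, C.f33_4, C.o1, e0, g8, s2]
                  · linarith only [C.f11_0, C.o0, g1, g8, s1]
                  · rcases (Ctx3_p22_33B C) with g9 | g9 | g9 | g9 | g9
                    · linarith only [e0, g9]
                    · linarith only [C.f22_4, C.f33_4, C.o1, e0, g9, s2]
                    · linarith only [C.f11_0, C.o0, g1, g9, s1]
                    · linarith only [C.o1, g2, g9, s2]
                    · rcases (Ctx3_p23_33A C) with g10 | g10 | g10 | g10 | g10 | g10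
                      · linarith only [C.o1, e0, g10]
                      · linarith only [C.f22_4, C.f33_4, C.o1, C.o2, e0, g10, s2]
                      · linarith only [C.f22_4, C.f33_4, C.o1, e0, g10, s2]
                      · linarith only [C.a1, C.f22_0, g10, g4, s1]
                      · linarith only [C.f22_4, C.o1, g10, g5, s2]
                      · rcases (Ctx3_p22_23B C) with g11 | g11 | g11 | g11 | g11 | g11
                        · linarith only [e0, g11]
                        · linarith only [C.o1, e0, g11]
                        · linarith only [C.f22_4, C.f33_4, C.o1, C.o2, e0, g11, s2]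
                        · linarith only [C.f11_0, C.f33_0, C.o0, g1, g11, g4, s1]
                        · rcases (Ctx3_p23_33B C) with g12 | g12 | g12 | g12 | g12 | g12
                          · linarith only [C.o1, e0, g12]
                          · linarith only [C.f22_4, C.f33_4, C.o1, C.o2, e0, g12, s2]
                          · linarith only [C.f22_4, C.f33_4, C.o1, e0, g12, s2]
                          · linarith only [C.b1, C.f22_0, C.o0, g12, g4, s1]
                          · linarith only [C.f22_4, C.o1, g12, g5, s2]
                          · rcases (Ctx3_tzmp C) with g13 | g13 | g13 | g13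
                            · linarith only [C.f11_0, C.f22_4, C.f33_3, C.o0, C.o1, g1, g13, s2]
                            · linarith only [C.f22_4, C.f33_4, C.o1, g13, s2]
                            · linarith only [C.f11_0, C.f22_1, C.o0, g1, g13, s1]
                            · linarith only [C.f22_4, C.f22_6, C.f33_7, g10, g13, g6, s3]
                        · linarith only [C.f33_7, g10, g11, g6, s3]
                  · linarith only [C.f33_7, g8, s3]
                · linarith only [C.f33_7, C.o2, g6, g7, s3]
            · linarith only [C.f22_4, C.f23_5, C.f33_4, C.o1, C.o2, g5, s2]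
          · linarith only [C.f11_0, C.f22_1, C.f23_0, C.o0, C.o1, g1, g3, g4, s1]
          · linarith only [C.f22_4, C.f23_1, C.f33_4, C.o1, C.o2, g4, s2]
        · linarith only [C.b2, C.f11_0, C.f22_4, C.f33_4, C.o0, C.o1, g1, g3, s2]
    · linarith only [C.a3, C.f11_0, C.f11_1, C.f22_4, C.o0, C.o1, g1, s2]
    · linarith only [C.a3, C.f11_0, C.f11_1, C.f11_2, C.f22_4, C.f22_6, C.f33_7, C.o0, C.o1, g1, s3]

end Pool.Agent.Helper94.TQ
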